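import Pool.Agent.Helper47.WCO.Basic

/-!
Injective entire functions are affine, and the case where the ranges of the univalent functions
exhaust the plane.
-/

set_option autoImplicit false

namespace Pool.Agent.Helper47.WCO

open Filter Topology Metric Set

/-- `φ` is linear fractional on the unit disc. -/
def IsLinearFractional (φ : ℂ → ℂ) : Prop :=
  ∃ a b c d : ℂ, a * d - b * c ≠ 0 ∧ ∀ z ∈ disc, c * z + d ≠ 0 ∧ φ z = (a * z + b) / (c * z + d)

lemma not_eventually_const {G : ℂ → ℂ} {U : Set ℂ} (hU : IsOpen U) (hG : InjOn G U) {z₀ : ℂ}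
    (hz₀ : z₀ ∈ U) : ¬ ∀ᶠ z in 𝓝 z₀, G z = G z₀ := by
  intro h
  have h1 : ∀ᶠ z in 𝓝[≠] z₀, (z ∈ U ∧ G z = G z₀) ∧ z ≠ z₀ := by
    filter_upwards [nhdsWithin_le_nhds h, nhdsWithin_le_nhds (hU.mem_nhds hz₀), self_mem_nhdsWithin]
      with z h1 h2 h3
    exact ⟨⟨h2, h1⟩, h3⟩
  obtain ⟨z, ⟨h1, h2⟩, h3⟩ := h1.exists
  exact h3 (hG h1 hz₀ h2)

lemma nhds_le_map {G : ℂ → ℂ} {U : Set ℂ} (hU : IsOpen U) (hd : DifferentiableOn ℂ G U)
    (hG : InjOn G U) {z₀ : ℂ} (hz₀ : z₀ ∈ U) : 𝓝 (G z₀) ≤ map G (𝓝 z₀) :=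
  ((hd.analyticAt (hU.mem_nhds hz₀)).eventually_constant_or_nhds_le_map_nhds).resolve_left
    (not_eventually_const hU hG hz₀)

/-- If `F ∘ G = H` with `G` univalent and `H` holomorphic, then `F` is holomorphic on the image. -/
lemma differentiableAt_of_comp {F G H : ℂ → ℂ} {U : Set ℂ} (hU : IsOpen U)
    (hG : DifferentiableOn ℂ G U) (hinj : InjOn G U) (hH : DifferentiableOn ℂ H U)
    (hF : ∀ z ∈ U, F (G z) = H z) {z₀ : ℂ} (hz₀ : z₀ ∈ U) : DifferentiableAt ℂ F (G z₀) := by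
  have hGan : AnalyticAt ℂ G z₀ := hG.analyticAt (hU.mem_nhds hz₀)
  have hle := nhds_le_map hU hG hinj hz₀
  -- continuity
  have hcont : ContinuousAt F (G z₀) := by
    have h1 : Tendsto (F ∘ G) (𝓝 z₀) (𝓝 (F (G z₀))) := by
      rw [hF z₀ hz₀]
      refine ((hH.differentiableAt (hU.mem_nhds hz₀)).continuousAt.tendsto).congr' ?_
      filter_upwards [hU.mem_nhds hz₀] with z hz
      exact (hF z hz).symm
    have h2 : Tendsto F (map G (𝓝 z₀)) (𝓝 (F (G z₀))) := h1
    exact h2.mono_left hle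
  -- differentiability where `G' ≠ 0`
  have hdiff : ∀ z ∈ U, deriv G z ≠ 0 → DifferentiableAt ℂ F (G z) := by
    intro z hz hne
    have hGz : AnalyticAt ℂ G z := hG.analyticAt (hU.mem_nhds hz)
    have hs : HasStrictDerivAt G (deriv G z) z := hGz.hasStrictDerivAt
    set g := hs.localInverse G (deriv G z) z hne with hg
    have hg1 : HasStrictDerivAt g (deriv G z)⁻¹ (G z) := hs.to_localInverse hne
    have hg2 : ∀ᶠ x in 𝓝 (G z), G (g x) = x :=
      (hs.hasStrictFDerivAt_equiv hne).eventually_right_inverse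
    have hg3 : g (G z) = z := (hs.hasStrictFDerivAt_equiv hne).localInverse_apply_image
    have hg4 : ∀ᶠ x in 𝓝 (G z), g x ∈ U := by
      have : Tendsto g (𝓝 (G z)) (𝓝 (g (G z))) := hg1.hasDerivAt.continuousAt.tendsto
      rw [hg3] at this
      exact this.eventually (hU.mem_nhds hz)
    have h1 : DifferentiableAt ℂ (fun x => H (g x)) (G z) := by
      have h2 : DifferentiableAt ℂ H (g (G z)) := by
        rw [hg3]; exact hH.differentiableAt (hU.mem_nhds hz)
      exact h2.comp (G z) hg1.hasDerivAt.differentiableAt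
    refine h1.congr_of_eventuallyEq ?_
    filter_upwards [hg2, hg4] with x h3 h4
    rw [← hF _ h4, h3]
  -- the zeros of `G'`
  have hpunct : ∀ᶠ z in 𝓝[≠] z₀, deriv G z ≠ 0 := by
    rcases hGan.deriv.eventually_eq_zero_or_eventually_ne_zero with h | h
    · exfalso
      apply not_eventually_const hU hinj hz₀
      obtain ⟨ε, hε, hball⟩ := Metric.eventually_nhds_iff_ball.1 (h.and (hU.mem_nhds hz₀))
      filter_upwards [ball_mem_nhds z₀ hε] with z hz
      refine (convex_ball z₀ ε).is_const_of_fderivWithin_eq_zero (𝕜 := ℂ)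
        (hG.mono fun x hx => (hball x hx).2) (fun x hx => ?_) hz (mem_ball_self hε)
      rw [fderivWithin_of_isOpen isOpen_ball hx]
      ext
      have := (hball x hx).1
      simpa using this
    · exact h
  have hfin : ∀ᶠ x in 𝓝 (G z₀), DifferentiableAt ℂ F x ∨ x = G z₀ := by
    apply hle
    rw [mem_map]
    have h1 : ∀ᶠ z in 𝓝 z₀, z ≠ z₀ → deriv G z ≠ 0 := eventually_nhdsWithin_iff.1 hpunct
    filter_upwards [h1, hU.mem_nhds hz₀] with z h2 h3
    by_cases hz : z = z₀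
    · right; rw [hz]
    · left; exact hdiff z h3 (h2 hz)
  refine (Complex.analyticAt_of_differentiable_on_punctured_nhds_of_continuousAt ?_ hcont).differentiableAt
  filter_upwards [nhdsWithin_le_nhds hfin, self_mem_nhdsWithin] with x h1 h2
  exact h1.resolve_right h2

/-- An injective entire function is affine. -/
theorem affine_of_injective {F : ℂ → ℂ} (hF : Differentiable ℂ F) (hinj : Function.Injective F) :
    ∃ α β : ℂ, α ≠ 0 ∧ ∀ x, F x = α * x + β := by
  obtain ⟨x₀, hx₀⟩ : ∃ x₀, deriv F x₀ ≠ 0 := by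
    by_contra hcon
    push Not at hcon
    have := is_const_of_deriv_eq_zero hF hcon 0 1
    exact zero_ne_one (hinj this)
  set h : ℂ → ℂ := dslope F x₀ with hh
  have hhd : Differentiable ℂ h := by
    rw [← differentiableOn_univ, hh, Complex.differentiableOn_dslope univ_mem]
    exact hF.differentiableOn
  have hhval : ∀ x, x ≠ x₀ → h x = (F x - F x₀) / (x - x₀) := by
    intro x hx
    rw [hh, dslope_of_ne _ hx, slope_def_field]
  have hhne : ∀ x, h x ≠ 0 := by
    intro x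
    by_cases hx : x = x₀
    · rw [hx, hh, dslope_same]; exact hx₀
    · rw [hhval x hx]
      exact div_ne_zero (sub_ne_zero.2 fun h1 => hx (hinj h1)) (sub_ne_zero.2 hx)
  set g : ℂ → ℂ := fun x => (h x)⁻¹ with hg
  have hgd : Differentiable ℂ g := hhd.inv hhne
  have hgne : ∀ x, g x ≠ 0 := fun x => inv_ne_zero (hhne x)
  -- lower bound
  obtain ⟨δ, hδ, hball⟩ : ∃ δ > 0, ball (F x₀) δ ⊆ F '' ball x₀ 1 := by
    have h1 := nhds_le_map isOpen_univ hF.differentiableOn hinj.injOn (mem_univ x₀)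
    exact Metric.mem_nhds_iff.1 (h1 (image_mem_map (ball_mem_nhds x₀ one_pos)))
  have hlow : ∀ x, 1 ≤ ‖x - x₀‖ → δ ≤ ‖F x - F x₀‖ := by
    intro x hx
    by_contra hcon
    push Not at hcon
    obtain ⟨y, hy, hyx⟩ := hball (show F x ∈ ball (F x₀) δ by rwa [mem_ball, dist_eq_norm])
    rw [← hinj hyx, ← dist_eq_norm] at hx
    exact absurd (mem_ball.1 hy) (not_lt.2 hx)
  set k : ℂ → ℂ := dslope g x₀ with hk
  have hkd : Differentiable ℂ k := by
    rw [← differentiableOn_univ, hk, Complex.differentiableOn_dslope univ_mem]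
    exact hgd.differentiableOn
  have hkval : ∀ x, x ≠ x₀ → k x = (g x - g x₀) / (x - x₀) := by
    intro x hx
    rw [hk, dslope_of_ne _ hx, slope_def_field]
  have hkb : Bornology.IsBounded (range k) := by
    obtain ⟨M, hM⟩ := (isCompact_closedBall x₀ 1).exists_bound_of_continuousOn
      hkd.continuous.continuousOn
    refine isBounded_iff_forall_norm_le.2 ⟨max M (1 / δ + ‖g x₀‖), ?_⟩
    rintro _ ⟨x, rfl⟩
    by_cases hx : x ∈ closedBall x₀ 1
    · exact (hM x hx).trans (le_max_left _ _)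
    · have hx1 : 1 < ‖x - x₀‖ := by
        rw [mem_closedBall, dist_eq_norm, not_le] at hx; exact hx
      have hxne : x ≠ x₀ := by
        rintro rfl; simp at hx1; linarith
      have hpos : 0 < ‖x - x₀‖ := by linarith
      refine le_trans ?_ (le_max_right _ _)
      rw [hkval x hxne, norm_div, div_le_iff₀ hpos]
      have h1 : ‖g x‖ ≤ ‖x - x₀‖ / δ := by
        rw [hg]
        simp only
        rw [hhval x hxne, inv_div, norm_div]
        exact div_le_div_of_nonneg_left (norm_nonneg _) hδ (hlow x hx1.le)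
      calc ‖g x - g x₀‖ ≤ ‖g x‖ + ‖g x₀‖ := norm_sub_le _ _
        _ ≤ ‖x - x₀‖ / δ + ‖g x₀‖ * ‖x - x₀‖ := by
          refine add_le_add h1 ?_
          exact le_mul_of_one_le_right (norm_nonneg _) hx1.le
        _ = (1 / δ + ‖g x₀‖) * ‖x - x₀‖ := by ring
  obtain ⟨β, hβ⟩ := hkd.exists_const_forall_eq_of_bounded hkb
  have hglin : ∀ x, g x = g x₀ + β * (x - x₀) := by
    intro x
    by_cases hx : x = x₀
    · rw [hx]; ring
    · have h1 := hkval x hx
      rw [hβ, eq_div_iff (sub_ne_zero.2 hx)] at h1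
      linear_combination (-1 : ℂ) * h1
  have hβ0 : β = 0 := by
    by_contra hne
    apply hgne (x₀ - g x₀ / β)
    rw [hglin]
    field_simp
    ring
  have hconst : ∀ x, h x = (g x₀)⁻¹ := by
    intro x
    have h1 := hglin x
    rw [hβ0, zero_mul, add_zero] at h1
    rw [← h1, hg]
    simp
  refine ⟨(g x₀)⁻¹, F x₀ - (g x₀)⁻¹ * x₀, inv_ne_zero (hgne x₀), fun x => ?_⟩
  by_cases hx : x = x₀
  · rw [hx]; ring
  · have h1 := hconst x
    rw [hhval x hx, div_eq_iff (sub_ne_zero.2 hx)] at h1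
    linear_combination h1

section Exhaust

variable {φ : ℂ → ℂ} {lam : ℂ} {τ : ℕ → ℂ → ℂ}

lemma tau_iterate (hφ : ∀ z ∈ disc, φ z ∈ disc) (hstep : ∀ n, ∀ z ∈ disc, τ (n + 1) (φ z) = τ n z)
    (n k : ℕ) : ∀ z ∈ disc, φ^[k] z ∈ disc ∧ τ (n + k) (φ^[k] z) = τ n z := by
  induction k with
  | zero => intro z hz; simpa using hz
  | succ k ih =>
    intro z hz
    obtain ⟨h1, h2⟩ := ih z hz
    rw [Function.iterate_succ_apply']
    refine ⟨hφ _ h1, ?_⟩
    rw [← add_assoc, hstep _ _ h1, h2]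

/-- If the ranges of the `τ n` exhaust the plane, `φ` is linear fractional. -/
theorem isLinearFractional_of_exhaust (hlam : ‖lam‖ ≤ 1) (hφ : ∀ z ∈ disc, φ z ∈ disc)
    (h0 : ∀ z ∈ disc, τ 0 z = -z / (1 - lam * z)) (hd : ∀ n, DifferentiableOn ℂ (τ n) disc)
    (hinj : ∀ n, InjOn (τ n) disc) (hstep : ∀ n, ∀ z ∈ disc, τ (n + 1) (φ z) = τ n z)
    (hex : ∀ x, ∃ n, ∃ z ∈ disc, τ n z = x) : IsLinearFractional φ := by
  have hex' : ∀ x, ∃ p : ℕ × ℂ, p.2 ∈ disc ∧ τ (p.1 + 1) p.2 = x := by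
    intro x
    obtain ⟨n, z, hz, hx⟩ := hex x
    exact ⟨(n, φ z), hφ z hz, by rw [hstep n z hz, hx]⟩
  choose p hp1 hp2 using hex'
  set F : ℂ → ℂ := fun x => τ (p x).1 (p x).2 with hF
  -- well defined
  have hwd : ∀ n m : ℕ, n ≤ m → ∀ z ∈ disc, ∀ z' ∈ disc, τ (n + 1) z = τ (m + 1) z' →
      τ n z = τ m z' := by
    intro n m hnm z hz z' hz' heq
    obtain ⟨h1, h2⟩ := tau_iterate hφ hstep (n + 1) (m - n) z hz
    obtain ⟨_, h3⟩ := tau_iterate hφ hstep n (m - n) z hz
    rw [show n + 1 + (m - n) = m + 1 by omega, heq] at h2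
    rw [show n + (m - n) = m by omega] at h3
    rw [← h3, hinj (m + 1) h1 hz' h2]
  have hFτ : ∀ n, ∀ z ∈ disc, F (τ (n + 1) z) = τ n z := by
    intro n z hz
    have h1 := hp1 (τ (n + 1) z)
    have h2 := hp2 (τ (n + 1) z)
    rcases le_total (p (τ (n + 1) z)).1 n with h3 | h3
    · exact hwd _ _ h3 _ h1 _ hz h2
    · exact (hwd _ _ h3 _ hz _ h1 h2.symm).symm
  have hFd : Differentiable ℂ F := by
    intro x
    have h1 := differentiableAt_of_comp isOpen_ball (hd ((p x).1 + 1)) (hinj _) (hd (p x).1)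
      (hFτ (p x).1) (hp1 x)
    rwa [hp2 x] at h1
  have hup : ∀ n m : ℕ, n ≤ m → ∀ z ∈ disc, ∃ z' ∈ disc, τ (m + 1) z' = τ (n + 1) z := by
    intro n m hnm z hz
    obtain ⟨h1, h2⟩ := tau_iterate hφ hstep (n + 1) (m - n) z hz
    refine ⟨_, h1, ?_⟩
    rwa [show n + 1 + (m - n) = m + 1 by omega] at h2
  have hFinj : Function.Injective F := by
    intro x y hxy
    set m := max (p x).1 (p y).1 with hm
    obtain ⟨z, hz, hzx⟩ := hup _ m (le_max_left _ _) _ (hp1 x)
    obtain ⟨z', hz', hzy⟩ := hup _ m (le_max_right _ _) _ (hp1 y)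
    rw [hp2] at hzx hzy
    rw [← hzx, ← hzy, hFτ m z hz, hFτ m z' hz'] at hxy
    rw [← hzx, ← hzy, hinj m hz hz' hxy]
  obtain ⟨α, β, hα, hαβ⟩ := affine_of_injective hFd hFinj
  have hkey : ∀ z ∈ disc, τ 0 (φ z) = α * τ 0 z + β := by
    intro z hz
    rw [← hαβ, ← hstep 0 z hz, hFτ 0 _ (hφ z hz)]
  have hne : ∀ z ∈ disc, 1 - lam * z ≠ 0 := by
    intro z hz h1
    have h2 : lam * z = 1 := (sub_eq_zero.1 h1).symm
    have h3 : ‖lam * z‖ = 1 := by rw [h2, norm_one]
    rw [norm_mul] at h3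
    have h4 := mem_disc.1 hz
    have h5 : ‖lam‖ * ‖z‖ ≤ 1 * ‖z‖ := mul_le_mul_of_nonneg_right hlam (norm_nonneg _)
    linarith
  refine ⟨-(α + β * lam), β, lam - lam * α - β * lam ^ 2, lam * β - 1, ?_, fun z hz => ?_⟩
  · have : -(α + β * lam) * (lam * β - 1) - β * (lam - lam * α - β * lam ^ 2) = α := by ring
    rw [this]; exact hα
  · have h1 := hkey z hz
    have h2 := hne z hz
    have h3 := hne _ (hφ z hz)
    rw [h0 z hz, h0 _ (hφ z hz)] at h1
    have h4 : (-φ z) * (1 - lam * z) = (-(α + β * lam) * z + β) * (1 - lam * φ z) := by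
      rw [div_eq_iff h3] at h1
      have h5 : (α * (-z / (1 - lam * z)) + β) * (1 - lam * z) = -(α + β * lam) * z + β := by
        have h6 : -z / (1 - lam * z) * (1 - lam * z) = -z := div_mul_cancel₀ _ h2
        linear_combination α * h6
      rw [h1, ← h5]; ring
    have h6 : (lam - lam * α - β * lam ^ 2) * z + (lam * β - 1) ≠ 0 := by
      intro h7
      have h8 : -(α + β * lam) * z + β = 0 := by
        linear_combination (-1 : ℂ) * h4 + φ z * h7
      apply h2
      linear_combination lam * h8 - h7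
    refine ⟨h6, ?_⟩
    rw [eq_div_iff h6]
    linear_combination h4

end Exhaust

end Pool.Agent.Helper47.WCO
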