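import Mathlib

/-!
The Hardy space of the unit disc, identified with `ℓ²` through Taylor coefficients.
-/

set_option autoImplicit false

namespace Pool.Agent.Helper47.WCO

open Filter Topology ComplexConjugate
open scoped ENNReal InnerProductSpace

/-- The Hardy space `H²`: a function `f(z) = ∑ aₙ zⁿ` with `∑ |aₙ|² < ∞` is identified with its
sequence `(aₙ)` of Taylor coefficients, so that `H²` is the Hilbert space `ℓ²`. -/
abbrev H2 : Type := lp (fun _ : ℕ => ℂ) 2

/-- The value `f(z) = ∑ aₙ zⁿ` of a function `f ∈ H²` at a point `z` of the unit disc. -/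
noncomputable def ev (f : H2) (z : ℂ) : ℂ := ∑' n : ℕ, f n * z ^ n

/-- The unit disc. -/
abbrev disc : Set ℂ := Metric.ball (0 : ℂ) 1

lemma mem_disc {z : ℂ} : z ∈ disc ↔ ‖z‖ < 1 := mem_ball_zero_iff

lemma norm_coeff_le (f : H2) (n : ℕ) : ‖f n‖ ≤ ‖f‖ := lp.norm_apply_le_norm (by norm_num) f n

lemma summable_norm_ev (f : H2) {z : ℂ} (hz : ‖z‖ < 1) : Summable fun n : ℕ => ‖f n * z ^ n‖ := by
  have h1 : Summable fun n : ℕ => ‖f‖ * ‖z‖ ^ n :=
    (summable_geometric_of_lt_one (norm_nonneg _) hz).mul_left _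
  refine Summable.of_nonneg_of_le (fun n => norm_nonneg _) (fun n => ?_) h1
  rw [norm_mul, norm_pow]
  exact mul_le_mul_of_nonneg_right (norm_coeff_le f n) (by positivity)

lemma summable_ev (f : H2) {z : ℂ} (hz : ‖z‖ < 1) : Summable fun n : ℕ => f n * z ^ n :=
  (summable_norm_ev f hz).of_norm

lemma hasSum_ev (f : H2) {z : ℂ} (hz : ‖z‖ < 1) : HasSum (fun n : ℕ => f n * z ^ n) (ev f z) :=
  (summable_ev f hz).hasSum

lemma memlp_geom {w : ℂ} (hw : ‖w‖ < 1) : Memℓp (fun n : ℕ => (conj w) ^ n) 2 := by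
  apply memℓp_gen
  have h1 : Summable fun n : ℕ => (‖w‖ ^ 2) ^ n :=
    summable_geometric_of_lt_one (by positivity) (pow_lt_one₀ (norm_nonneg _) hw (by norm_num))
  refine h1.congr fun n => ?_
  simp only [norm_pow, RCLike.norm_conj, ENNReal.toReal_ofNat, Real.rpow_ofNat]
  ring

open Classical in
/-- The reproducing kernel `k_w(z) = 1/(1 - w̄ z)`. -/
noncomputable def ker (w : ℂ) : H2 := if hw : ‖w‖ < 1 then ⟨fun n => (conj w) ^ n, memlp_geom hw⟩ else 0

lemma ker_apply {w : ℂ} (hw : ‖w‖ < 1) (n : ℕ) : ker w n = (conj w) ^ n := by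
  simp [ker, hw]

lemma inner_ker (f : H2) {w : ℂ} (hw : ‖w‖ < 1) : ⟪ker w, f⟫_ℂ = ev f w := by
  rw [lp.inner_eq_tsum, ev]
  refine tsum_congr fun n => ?_
  rw [ker_apply hw, RCLike.inner_apply, map_pow, RingHomCompTriple.comp_apply, RingHom.id_apply]

lemma one_sub_conj_mul_ne_zero {w z : ℂ} (hw : ‖w‖ ≤ 1) (hz : ‖z‖ < 1) : 1 - conj w * z ≠ 0 := by
  intro h
  have h1 : conj w * z = 1 := (sub_eq_zero.1 h).symm
  have h2 : ‖conj w * z‖ = 1 := by rw [h1, norm_one]
  rw [norm_mul, RCLike.norm_conj] at h2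
  have h3 : ‖w‖ * ‖z‖ ≤ 1 * ‖z‖ := mul_le_mul_of_nonneg_right hw (norm_nonneg _)
  linarith

lemma ev_ker {w z : ℂ} (hw : ‖w‖ < 1) (hz : ‖z‖ < 1) : ev (ker w) z = (1 - conj w * z)⁻¹ := by
  rw [ev]
  have h : ‖conj w * z‖ < 1 := by
    rw [norm_mul, RCLike.norm_conj]
    calc ‖w‖ * ‖z‖ ≤ 1 * ‖z‖ := mul_le_mul_of_nonneg_right hw.le (norm_nonneg _)
      _ < 1 := by rw [one_mul]; exact hz
  rw [← tsum_geometric_of_norm_lt_one h]
  refine tsum_congr fun n => ?_
  rw [ker_apply hw, mul_pow]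

lemma ev_ker_ne_zero {w z : ℂ} (hw : ‖w‖ < 1) (hz : ‖z‖ < 1) : ev (ker w) z ≠ 0 := by
  rw [ev_ker hw hz]
  exact inv_ne_zero (one_sub_conj_mul_ne_zero hw.le hz)

lemma differentiableOn_ev (f : H2) : DifferentiableOn ℂ (ev f) disc := by
  intro z hz
  rw [mem_disc] at hz
  obtain ⟨r, hr1, hr2⟩ := exists_between hz
  have hr0 : 0 ≤ r := (norm_nonneg _).trans hr1.le
  have h1 : DifferentiableOn ℂ (fun z => ∑' n : ℕ, f n * z ^ n) (Metric.ball 0 r) := by
    refine Complex.differentiableOn_tsum_of_summable_norm (u := fun n => ‖f‖ * r ^ n)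
      ((summable_geometric_of_lt_one hr0 hr2).mul_left _) (fun n => ?_) Metric.isOpen_ball ?_
    · fun_prop
    · intro n w hw
      rw [norm_mul, norm_pow]
      have h2 : ‖w‖ ≤ r := (mem_ball_zero_iff.1 hw).le
      exact mul_le_mul (norm_coeff_le f n) (pow_le_pow_left₀ (norm_nonneg _) h2 n) (by positivity)
        (norm_nonneg _)
  exact (h1.differentiableAt (Metric.isOpen_ball.mem_nhds (mem_ball_zero_iff.2 hr1))).differentiableWithinAt

lemma ev_add (f g : H2) {z : ℂ} (hz : ‖z‖ < 1) : ev (f + g) z = ev f z + ev g z := by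
  rw [← inner_ker _ hz, inner_add_right, inner_ker _ hz, inner_ker _ hz]

lemma ev_sub (f g : H2) {z : ℂ} (hz : ‖z‖ < 1) : ev (f - g) z = ev f z - ev g z := by
  rw [← inner_ker _ hz, inner_sub_right, inner_ker _ hz, inner_ker _ hz]

lemma ev_smul (c : ℂ) (f : H2) {z : ℂ} (hz : ‖z‖ < 1) : ev (c • f) z = c * ev f z := by
  rw [← inner_ker _ hz, inner_smul_right, inner_ker _ hz]

lemma ev_zero' (z : ℂ) : ev 0 z = 0 := by
  simp [ev]

/-- A power series with bounded coefficients. -/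
lemma hasFPowerSeriesOnBall_ev (f : H2) :
    HasFPowerSeriesOnBall (ev f) (FormalMultilinearSeries.ofScalars ℂ (fun n => f n)) 0 1 where
  r_le := by
    refine ENNReal.le_of_forall_nnreal_lt fun r hr => ?_
    have hr' : r < 1 := by exact_mod_cast hr
    refine FormalMultilinearSeries.le_radius_of_bound _ ‖f‖ fun n => ?_
    rw [FormalMultilinearSeries.ofScalars_norm]
    have h1 : (r : ℝ) ^ n ≤ 1 := pow_le_one₀ r.2 (by exact_mod_cast hr'.le)
    calc ‖f n‖ * (r : ℝ) ^ n ≤ ‖f‖ * 1 := mul_le_mul (norm_coeff_le f n) h1 (by positivity)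
          (norm_nonneg _)
      _ = ‖f‖ := mul_one _
  r_pos := one_pos
  hasSum := by
    intro y hy
    have hy' : ‖y‖ < 1 := by
      have h1 : ‖y‖₊ < 1 := by simpa [Metric.mem_eball, edist_zero_right, enorm_eq_nnnorm] using hy
      exact_mod_cast h1
    rw [zero_add]
    have := hasSum_ev f hy'
    simpa only [FormalMultilinearSeries.ofScalars_apply_eq, smul_eq_mul] using this

/-- An element of `H²` is determined by its values. -/
lemma ev_injective {f g : H2} (h : ∀ z, ‖z‖ < 1 → ev f z = ev g z) : f = g := by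
  have h1 := (hasFPowerSeriesOnBall_ev f).hasFPowerSeriesAt
  have h2 := (hasFPowerSeriesOnBall_ev g).hasFPowerSeriesAt
  have h3 : ev f =ᶠ[𝓝 0] ev g := by
    filter_upwards [Metric.ball_mem_nhds (0 : ℂ) one_pos] with z hz
    exact h z (mem_disc.1 hz)
  have h4 := h1.eq_formalMultilinearSeries (h2.congr h3.symm)
  have h5 := FormalMultilinearSeries.ofScalars_series_injective ℂ ℂ h4
  ext n
  exact congrFun h5 n

lemma eq_zero_of_ev {f : H2} (h : ∀ z, ‖z‖ < 1 → ev f z = 0) : f = 0 :=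
  ev_injective fun z hz => by rw [h z hz, ev_zero']

lemma eq_zero_of_inner_ker {f : H2} (h : ∀ w, ‖w‖ < 1 → ⟪ker w, f⟫_ℂ = 0) : f = 0 :=
  eq_zero_of_ev fun z hz => by rw [← inner_ker _ hz, h z hz]

lemma ker_ne_zero {w : ℂ} (hw : ‖w‖ < 1) : ker w ≠ 0 := by
  intro h
  have h1 := ker_apply hw 0
  rw [h] at h1
  simp at h1

lemma ev_coeff_zero (f : H2) : ev f 0 = f 0 := by
  rw [← inner_ker _ (by simp), lp.inner_eq_tsum]
  rw [tsum_eq_single 0]
  · rw [ker_apply (by simp)]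
    simp
  · intro n hn
    rw [ker_apply (by simp)]
    simp [hn]

/-- Two proportional kernels coincide. -/
lemma eq_of_ker_smul {w z : ℂ} (hw : ‖w‖ < 1) (hz : ‖z‖ < 1) {a b : ℂ} (ha : a ≠ 0)
    (h : a • ker w = b • ker z) : w = z := by
  have h0 := congrArg (fun f : H2 => f 0) h
  have h1 := congrArg (fun f : H2 => f 1) h
  simp only [lp.coeFn_smul, Pi.smul_apply, smul_eq_mul, ker_apply hw, ker_apply hz, pow_zero,
    mul_one, pow_one] at h0 h1
  rw [h0] at h1 ha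
  have h2 := mul_left_cancel₀ ha h1
  exact (starRingEnd ℂ).injective h2

/-- Identity theorem in the form used below. -/
lemma eqOn_disc_of_comp {G H χ : ℂ → ℂ} (hG : DifferentiableOn ℂ G disc)
    (hH : DifferentiableOn ℂ H disc) (hχ : ContinuousAt χ 0) (hm : Set.MapsTo χ disc disc)
    (hinj : Set.InjOn χ disc) (h : ∀ z ∈ disc, G (χ z) = H (χ z)) : ∀ z ∈ disc, G z = H z := by
  have h0 : (0 : ℂ) ∈ disc := by simp
  have h1 : AnalyticOnNhd ℂ G disc := hG.analyticOnNhd Metric.isOpen_ball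
  have h2 : AnalyticOnNhd ℂ H disc := hH.analyticOnNhd Metric.isOpen_ball
  have h3 : IsPreconnected disc := (convex_ball (0 : ℂ) 1).isPreconnected
  refine h1.eqOn_of_preconnected_of_frequently_eq h2 h3 (hm h0) ?_
  have h4 : Tendsto χ (𝓝[≠] 0) (𝓝[≠] (χ 0)) := by
    refine tendsto_nhdsWithin_iff.2 ⟨hχ.tendsto.mono_left nhdsWithin_le_nhds, ?_⟩
    have h5 : disc ∈ 𝓝[≠] (0 : ℂ) := nhdsWithin_le_nhds (Metric.isOpen_ball.mem_nhds h0)
    filter_upwards [h5, self_mem_nhdsWithin] with z hz hz0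
    exact fun h6 => hz0 (hinj hz h0 h6)
  have h5 : ∀ᶠ z in 𝓝[≠] (0 : ℂ), G (χ z) = H (χ z) := by
    have h5 : disc ∈ 𝓝[≠] (0 : ℂ) := nhdsWithin_le_nhds (Metric.isOpen_ball.mem_nhds h0)
    filter_upwards [h5] with z hz
    exact h z hz
  exact h4.frequently h5.frequently

end Pool.Agent.Helper47.WCO
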