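import Pool.Agent.Helper47.WCO.Basic

/-!
Multiplication operators by bounded holomorphic functions on `H²`.
-/

set_option autoImplicit false

namespace Pool.Agent.Helper47.WCO

open Filter Topology ComplexConjugate MeasureTheory
open scoped ENNReal InnerProductSpace

lemma exists_coeff {h : ℂ → ℂ} (hh : DifferentiableOn ℂ h disc) :
    ∃ a : ℕ → ℂ, ∀ z, ‖z‖ < 1 → HasSum (fun n => a n * z ^ n) (h z) := by
  refine ⟨fun n => (n.factorial : ℂ)⁻¹ * iteratedDeriv n h 0, fun z hz => ?_⟩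
  have := Complex.hasSum_taylorSeries_on_ball (c := 0) (r := 1) (f := h) hh (mem_disc.2 hz)
  simp only [sub_zero, smul_eq_mul] at this
  refine this.congr_fun fun n => ?_
  ring

/-- The isometry of `ℓ²(ℕ)` into `L²` of the circle. -/
noncomputable def J : H2 →ₗᵢ[ℂ] Lp ℂ 2 (@AddCircle.haarAddCircle 1 _) :=
  (orthonormal_fourier.comp (fun n : ℕ => (n : ℤ)) Nat.cast_injective).orthogonalFamily.linearIsometry

lemma J_ae {c : H2} (hc : Summable fun n => ‖c n‖) :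
    J c =ᵐ[@AddCircle.haarAddCircle 1 _] fun t => ∑' n : ℕ, c n * fourier (n : ℤ) t := by
  have h1 : Summable fun n : ℕ => c n • (fourier (n : ℤ) : C(AddCircle (1 : ℝ), ℂ)) := by
    refine Summable.of_norm ?_
    refine hc.congr fun n => ?_
    rw [norm_smul, fourier_norm, mul_one]
  have h2 : J c = ContinuousMap.toLp 2 (@AddCircle.haarAddCircle 1 _) ℂ
      (∑' n : ℕ, c n • (fourier (n : ℤ) : C(AddCircle (1 : ℝ), ℂ))) := by
    rw [ContinuousLinearMap.map_tsum _ h1]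
    unfold J
    rw [OrthogonalFamily.linearIsometry_apply]
    refine tsum_congr fun n => ?_
    rw [map_smul]
    rfl
  rw [h2]
  refine (ContinuousMap.coeFn_toLp (p := 2) (𝕜 := ℂ) _ _).trans ?_
  refine Eventually.of_forall fun t => ?_
  exact (ContinuousMap.tsum_apply h1 t).symm.trans (tsum_congr fun n => rfl)


lemma norm_le_of_ae {c d : H2} (hc : Summable fun n => ‖c n‖) (hd : Summable fun n => ‖d n‖)
    {C : ℝ} (h : ∀ t : AddCircle (1 : ℝ), ‖∑' n : ℕ, d n * fourier (n : ℤ) t‖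
      ≤ C * ‖∑' n : ℕ, c n * fourier (n : ℤ) t‖) : ‖d‖ ≤ C * ‖c‖ := by
  rw [← J.norm_map d, ← J.norm_map c]
  refine Lp.norm_le_mul_norm_of_ae_le_mul ?_
  filter_upwards [J_ae hc, J_ae hd] with t h1 h2
  rw [h1, h2]
  exact h t

lemma sq_sum_eq_norm_sq (f : H2) : ∑' n, ‖f n‖ ^ 2 = ‖f‖ ^ 2 := by
  have := lp.norm_rpow_eq_tsum (p := 2) (by norm_num) f
  simpa using this.symm

lemma hasSum_norm_sq (f : H2) : HasSum (fun n => ‖f n‖ ^ 2) (‖f‖ ^ 2) := by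
  have := lp.hasSum_norm (p := 2) (by norm_num) f
  simpa using this

lemma memlp_of_abs {c : ℕ → ℂ} (hc : Summable fun n => ‖c n‖) : Memℓp c 2 := by
  have h1 : Memℓp c 1 := by
    apply memℓp_gen
    simpa using hc
  exact h1.of_exponent_ge (by norm_num)

/-- Coefficients of the product of a bounded holomorphic function and an element of `H²`. -/
noncomputable def mulCoeff (a : ℕ → ℂ) (f : H2) (n : ℕ) : ℂ :=
  ∑ kl ∈ Finset.HasAntidiagonal.antidiagonal n, a kl.1 * f kl.2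

lemma mulCoeff_eval {h : ℂ → ℂ} {a : ℕ → ℂ} (ha : ∀ z, ‖z‖ < 1 → HasSum (fun n => a n * z ^ n) (h z))
    (f : H2) {z : ℂ} (hz : ‖z‖ < 1) :
    (Summable fun n => ‖mulCoeff a f n * z ^ n‖) ∧
      ∑' n, mulCoeff a f n * z ^ n = h z * ev f z := by
  have h1 : Summable fun n => ‖a n * z ^ n‖ := (ha z hz).summable.norm
  have h2 := summable_norm_ev f hz
  have e : ∀ n, ∑ kl ∈ Finset.HasAntidiagonal.antidiagonal n, (a kl.1 * z ^ kl.1) * (f kl.2 * z ^ kl.2)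
      = mulCoeff a f n * z ^ n := by
    intro n
    rw [mulCoeff, Finset.sum_mul]
    refine Finset.sum_congr rfl fun kl hkl => ?_
    rw [← Finset.HasAntidiagonal.mem_antidiagonal.1 hkl, pow_add]
    ring
  constructor
  · have := summable_norm_sum_mul_antidiagonal_of_summable_norm h1 h2
    simpa only [e] using this
  · have := tsum_mul_tsum_eq_tsum_sum_antidiagonal_of_summable_norm h1 h2
    rw [(ha z hz).tsum_eq] at this
    simp only [e] at this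
    rw [← this]; rfl

lemma fourier_nat (n : ℕ) (t : AddCircle (1 : ℝ)) :
    (fourier (n : ℤ) t : ℂ) = (fourier (1 : ℤ) t : ℂ) ^ n := by
  induction n with
  | zero => simp
  | succ n ih => rw [Nat.cast_succ, fourier_add, ih, pow_succ]

lemma norm_fourier_one (t : AddCircle (1 : ℝ)) : ‖(fourier (1 : ℤ) t : ℂ)‖ = 1 := by
  rw [fourier_one]; exact Circle.norm_coe _

lemma norm_scaled_le {h : ℂ → ℂ} {a : ℕ → ℂ} (ha : ∀ z, ‖z‖ < 1 → HasSum (fun n => a n * z ^ n) (h z))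
    {C : ℝ} (hC : ∀ z, ‖z‖ < 1 → ‖h z‖ ≤ C) (f : H2) {r : ℝ}
    (hrn : ‖(r : ℂ)‖ < 1) {c d : H2} (hc : ∀ n, c n = f n * (r : ℂ) ^ n)
    (hd : ∀ n, d n = mulCoeff a f n * (r : ℂ) ^ n) : ‖d‖ ≤ C * ‖c‖ := by
  refine norm_le_of_ae ?_ ?_ fun t => ?_
  · simp only [hc]
    exact summable_norm_ev f hrn
  · simp only [hd]
    exact (mulCoeff_eval ha f hrn).1
  · have hz : ‖(r : ℂ) * fourier (1 : ℤ) t‖ < 1 := by
      rw [norm_mul, norm_fourier_one, mul_one]; exact hrn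
    have e2 : ∑' n : ℕ, d n * fourier (n : ℤ) t
        = h ((r : ℂ) * fourier (1 : ℤ) t) * ev f ((r : ℂ) * fourier (1 : ℤ) t) := by
      rw [← (mulCoeff_eval ha f hz).2]
      refine tsum_congr fun n => ?_
      rw [fourier_nat, mul_pow, ← mul_assoc, hd]
    have e3 : ∑' n : ℕ, c n * fourier (n : ℤ) t = ev f ((r : ℂ) * fourier (1 : ℤ) t) := by
      rw [ev]
      refine tsum_congr fun n => ?_
      rw [fourier_nat, mul_pow, ← mul_assoc, hc]
    rw [e2, e3, norm_mul]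
    exact mul_le_mul_of_nonneg_right (hC _ hz) (norm_nonneg _)

lemma mulCoeff_sum_le_scaled {h : ℂ → ℂ} {a : ℕ → ℂ}
    (ha : ∀ z, ‖z‖ < 1 → HasSum (fun n => a n * z ^ n) (h z))
    {C : ℝ} (hC0 : 0 ≤ C) (hC : ∀ z, ‖z‖ < 1 → ‖h z‖ ≤ C) (f : H2) (s : Finset ℕ) (r : ℝ)
    (hr0 : 0 < r) (hr1 : r < 1) : ∑ n ∈ s, (‖mulCoeff a f n‖ * r ^ n) ^ 2 ≤ (C * ‖f‖) ^ 2 := by
  have hrn : ‖(r : ℂ)‖ < 1 := by
    rw [Complex.norm_real, Real.norm_eq_abs, abs_of_pos hr0]; exact hr1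
  have hcs : Summable fun n => ‖f n * (r : ℂ) ^ n‖ := summable_norm_ev f hrn
  have hds : Summable fun n => ‖mulCoeff a f n * (r : ℂ) ^ n‖ := (mulCoeff_eval ha f hrn).1
  obtain ⟨c, hc⟩ : ∃ c : H2, ∀ n, c n = f n * (r : ℂ) ^ n :=
    ⟨⟨fun n => f n * (r : ℂ) ^ n, memlp_of_abs hcs⟩, fun n => rfl⟩
  obtain ⟨d, hd⟩ : ∃ d : H2, ∀ n, d n = mulCoeff a f n * (r : ℂ) ^ n :=
    ⟨⟨fun n => mulCoeff a f n * (r : ℂ) ^ n, memlp_of_abs hds⟩, fun n => rfl⟩
  have h1 := norm_scaled_le ha hC f hrn hc hd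
  have h2 : ‖c‖ ≤ ‖f‖ := by
    have h3 : ‖c‖ ^ 2 ≤ ‖f‖ ^ 2 := by
      refine hasSum_le (fun n => ?_) (hasSum_norm_sq c) (hasSum_norm_sq f)
      refine pow_le_pow_left₀ (norm_nonneg _) ?_ 2
      rw [hc, norm_mul, norm_pow]
      exact mul_le_of_le_one_right (norm_nonneg _) (pow_le_one₀ (norm_nonneg _) hrn.le)
    exact le_of_sq_le_sq h3 (norm_nonneg _)
  have h4 : ∑ n ∈ s, ‖d n‖ ^ 2 ≤ ‖d‖ ^ 2 :=
    sum_le_hasSum s (fun _ _ => by positivity) (hasSum_norm_sq d)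
  have h5 : ∑ n ∈ s, (‖mulCoeff a f n‖ * r ^ n) ^ 2 = ∑ n ∈ s, ‖d n‖ ^ 2 := by
    refine Finset.sum_congr rfl fun n _ => ?_
    rw [hd, norm_mul, norm_pow, Complex.norm_real, Real.norm_eq_abs, abs_of_pos hr0]
  rw [h5]
  refine h4.trans (pow_le_pow_left₀ (norm_nonneg _) ?_ 2)
  exact h1.trans (mul_le_mul_of_nonneg_left h2 hC0)

lemma mulCoeff_sum_le {h : ℂ → ℂ} {a : ℕ → ℂ} (ha : ∀ z, ‖z‖ < 1 → HasSum (fun n => a n * z ^ n) (h z))
    {C : ℝ} (hC0 : 0 ≤ C) (hC : ∀ z, ‖z‖ < 1 → ‖h z‖ ≤ C) (f : H2) (s : Finset ℕ) :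
    ∑ n ∈ s, ‖mulCoeff a f n‖ ^ 2 ≤ (C * ‖f‖) ^ 2 := by
  have h6 : Tendsto (fun r : ℝ => ∑ n ∈ s, (‖mulCoeff a f n‖ * r ^ n) ^ 2) (𝓝[<] 1)
      (𝓝 (∑ n ∈ s, (‖mulCoeff a f n‖ * 1 ^ n) ^ 2)) := by
    apply Tendsto.mono_left _ nhdsWithin_le_nhds
    have : Continuous fun r : ℝ => ∑ n ∈ s, (‖mulCoeff a f n‖ * r ^ n) ^ 2 := by fun_prop
    exact this.tendsto 1
  simp only [one_pow, mul_one] at h6
  refine le_of_tendsto h6 ?_
  filter_upwards [Ioo_mem_nhdsLT (show (0 : ℝ) < 1 by norm_num)] with r hr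
  exact mulCoeff_sum_le_scaled ha hC0 hC f s r hr.1 hr.2

/-- Multiplication by a bounded holomorphic function is a bounded operator of `H²`. -/
theorem exists_mulOp {h : ℂ → ℂ} (hh : DifferentiableOn ℂ h disc) {C : ℝ}
    (hC : ∀ z ∈ disc, ‖h z‖ ≤ C) :
    ∃ M : H2 →L[ℂ] H2, (∀ f, ‖M f‖ ≤ C * ‖f‖) ∧ ∀ f z, ‖z‖ < 1 → ev (M f) z = h z * ev f z := by
  obtain ⟨a, ha⟩ := exists_coeff hh
  have hC0 : 0 ≤ C := (norm_nonneg _).trans (hC 0 (by simp))
  have hC' : ∀ z, ‖z‖ < 1 → ‖h z‖ ≤ C := fun z hz => hC z (mem_disc.2 hz)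
  have hmem : ∀ f : H2, Memℓp (mulCoeff a f) 2 := by
    intro f
    refine memℓp_gen' (C := (C * ‖f‖) ^ 2) fun s => ?_
    simpa using mulCoeff_sum_le ha hC0 hC' f s
  let L : H2 →ₗ[ℂ] H2 :=
    { toFun := fun f => ⟨mulCoeff a f, hmem f⟩
      map_add' := by
        intro f g
        ext n
        show mulCoeff a (f + g) n = mulCoeff a f n + mulCoeff a g n
        simp [mulCoeff, mul_add, Finset.sum_add_distrib]
      map_smul' := by
        intro c f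
        ext n
        simp only [mulCoeff, lp.coeFn_smul, Pi.smul_apply, smul_eq_mul, RingHom.id_apply,
          Finset.mul_sum]
        refine Finset.sum_congr rfl fun kl _ => ?_
        ring }
  have hL : ∀ f, ‖L f‖ ≤ C * ‖f‖ := by
    intro f
    refine lp.norm_le_of_forall_sum_le (p := 2) (by norm_num) (by positivity) fun s => ?_
    have := mulCoeff_sum_le ha hC0 hC' f s
    simp only [ENNReal.toReal_ofNat, Real.rpow_ofNat]
    exact this
  refine ⟨L.mkContinuous C hL, hL, fun f z hz => ?_⟩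
  exact (mulCoeff_eval ha f hz).2

end Pool.Agent.Helper47.WCO
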