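import Pool.Agent.Helper47.WCO.Entire

/-!
Square roots on the disc, and the multipliers obtained when the ranges omit a value.
-/

set_option autoImplicit false

namespace Pool.Agent.Helper47.WCO

open Filter Topology Metric Set

/-- Holomorphic square roots on the disc. -/
lemma exists_sqrt {f : ℂ → ℂ} (hf : DifferentiableOn ℂ f disc) (hne : ∀ z ∈ disc, f z ≠ 0) :
    ∃ s : ℂ → ℂ, DifferentiableOn ℂ s disc ∧ ∀ z ∈ disc, s z ^ 2 = f z := by
  have h0 : (0 : ℂ) ∈ disc := by simp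
  have hfd : DifferentiableOn ℂ (deriv f) disc := hf.deriv isOpen_ball
  have h1 : DifferentiableOn ℂ (fun z => deriv f z / f z) disc := hfd.div hf hne
  obtain ⟨L, hL0, hL⟩ := h1.isExactOn_ball.with_val_at (0 : ℂ) (Complex.log (f 0))
  have hLd : ∀ z ∈ disc, HasDerivAt L (deriv f z / f z) z := hL
  have hconst : ∀ z ∈ disc, f z * Complex.exp (-L z) = 1 := by
    intro z hz
    have h2 : f z * Complex.exp (-L z) = f 0 * Complex.exp (-L 0) := by
      have h3 : ∀ x ∈ disc, HasDerivAt (fun x => f x * Complex.exp (-L x)) 0 x := by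
        intro x hx
        have hfx := (hf.differentiableAt (isOpen_ball.mem_nhds hx)).hasDerivAt
        have h4 := hfx.mul ((hLd x hx).neg.cexp)
        refine h4.congr_deriv ?_
        have h5 := hne x hx
        field_simp
        ring
      refine (convex_ball (0 : ℂ) 1).is_const_of_fderivWithin_eq_zero (𝕜 := ℂ)
        (f := fun x => f x * Complex.exp (-L x))
        (fun x hx => (h3 x hx).differentiableAt.differentiableWithinAt) (fun x hx => ?_) hz h0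
      rw [fderivWithin_of_isOpen isOpen_ball hx]
      ext
      have := (h3 x hx).deriv
      simpa using this
    rw [h2, hL0, Complex.exp_neg, Complex.exp_log (hne 0 h0), mul_inv_cancel₀ (hne 0 h0)]
  refine ⟨fun z => Complex.exp (L z / 2), ?_, ?_⟩
  · intro z hz
    exact (((hLd z hz).div_const 2).cexp).differentiableAt.differentiableWithinAt
  · intro z hz
    have h2 := hconst z hz
    rw [Complex.exp_neg, mul_inv_eq_one₀ (Complex.exp_ne_zero _)] at h2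
    rw [h2, ← Complex.exp_nat_mul]
    congr 1
    push_cast
    ring

section

variable {φ : ℂ → ℂ} {lam : ℂ} {τ : ℕ → ℂ → ℂ}

theorem exists_multipliers (hlam : ‖lam‖ ≤ 1) (hφ : ∀ z ∈ disc, φ z ∈ disc)
    (hφd : ∀ n, DifferentiableOn ℂ φ^[n] disc)
    (h0 : ∀ z ∈ disc, τ 0 z = -z / (1 - lam * z)) (hd : ∀ n, DifferentiableOn ℂ (τ n) disc)
    (hinj : ∀ n, InjOn (τ n) disc) (hstep : ∀ n, ∀ z ∈ disc, τ (n + 1) (φ z) = τ n z)
    {q : ℂ} (hq : ∀ n, ∀ z ∈ disc, τ n z ≠ q) :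
    ∃ (g : ℂ → ℂ) (gn : ℕ → ℂ → ℂ) (C : ℝ),
      (∀ n, DifferentiableOn ℂ (gn n) disc) ∧ (∀ n, ∀ z ∈ disc, ‖gn n z‖ ≤ C) ∧
      (∀ n, ∀ z ∈ disc, gn n (φ^[n] z) = g z) ∧ DifferentiableOn ℂ g disc ∧
      (∀ z ∈ disc, ‖g z‖ ≤ C) ∧
      ∀ w ∈ disc, ∃ (e : ℂ → ℂ) (M : ℝ), DifferentiableOn ℂ e disc ∧ (∀ z ∈ disc, ‖e z‖ ≤ M) ∧
        ∀ z ∈ disc, (g z - g w) * e z = z - w := by
  have hz0 : (0 : ℂ) ∈ disc := by simp
  have hroot : ∀ n, ∃ s : ℂ → ℂ, DifferentiableOn ℂ s disc ∧ ∀ z ∈ disc, s z ^ 2 = τ n z - q :=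
    fun n => exists_sqrt ((hd n).sub_const q) fun z hz => sub_ne_zero.2 (hq n z hz)
  have hτ0 : ∀ n, ∀ z ∈ disc, φ^[n] z ∈ disc ∧ τ n (φ^[n] z) = τ 0 z := by
    intro n z hz
    have := tau_iterate hφ hstep 0 n z hz
    rwa [zero_add] at this
  obtain ⟨s₀, hs₀d, hs₀⟩ := hroot 0
  have hs₀ne : ∀ z ∈ disc, s₀ z ≠ 0 := by
    intro z hz h1
    have := hs₀ z hz
    rw [h1] at this
    exact sub_ne_zero.2 (hq 0 z hz) (by simpa using this.symm)
  -- choice of signs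
  have hsn : ∀ n, ∃ s : ℂ → ℂ, DifferentiableOn ℂ s disc ∧ (∀ z ∈ disc, s z ^ 2 = τ n z - q) ∧
      ∀ z ∈ disc, s (φ^[n] z) = s₀ z := by
    intro n
    obtain ⟨s, hsd, hs⟩ := hroot n
    have hsq : ∀ z ∈ disc, s (φ^[n] z) ^ 2 = s₀ z ^ 2 := by
      intro z hz
      rw [hs _ (hτ0 n z hz).1, (hτ0 n z hz).2, hs₀ z hz]
    obtain ⟨t, htd, ht, ht0⟩ : ∃ t : ℂ → ℂ, DifferentiableOn ℂ t disc ∧
        (∀ z ∈ disc, t z ^ 2 = τ n z - q) ∧ t (φ^[n] 0) = s₀ 0 := by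
      rcases sq_eq_sq_iff_eq_or_eq_neg.1 (hsq 0 hz0) with h1 | h1
      · exact ⟨s, hsd, hs, h1⟩
      · refine ⟨fun z => -s z, hsd.neg, fun z hz => by rw [neg_sq, hs z hz], ?_⟩
        simp only
        rw [h1, neg_neg]
    refine ⟨t, htd, ht, ?_⟩
    have hcd : DifferentiableOn ℂ (fun z => t (φ^[n] z)) disc :=
      htd.comp (hφd n) fun z hz => (hτ0 n z hz).1
    have han1 : AnalyticOnNhd ℂ (fun z => t (φ^[n] z)) disc := hcd.analyticOnNhd isOpen_ball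
    have han2 : AnalyticOnNhd ℂ s₀ disc := hs₀d.analyticOnNhd isOpen_ball
    refine han1.eqOn_of_preconnected_of_eventuallyEq han2 (convex_ball (0 : ℂ) 1).isPreconnected
      hz0 ?_
    have hc : ContinuousAt (fun z => t (φ^[n] z) + s₀ z) 0 :=
      (han1 0 hz0).continuousAt.add (han2 0 hz0).continuousAt
    have hne : t (φ^[n] 0) + s₀ 0 ≠ 0 := by
      rw [ht0, ← two_mul]; exact mul_ne_zero two_ne_zero (hs₀ne 0 hz0)
    filter_upwards [hc.eventually_ne hne, isOpen_ball.mem_nhds hz0] with z h1 h2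
    have h3 : (t (φ^[n] z) - s₀ z) * (t (φ^[n] z) + s₀ z) = 0 := by
      have h4 : t (φ^[n] z) ^ 2 = s₀ z ^ 2 := by
        rw [ht _ (hτ0 n z h2).1, (hτ0 n z h2).2, hs₀ z h2]
      linear_combination h4
    exact sub_eq_zero.1 ((mul_eq_zero.1 h3).resolve_right h1)
  choose s hsd hs hscomp using hsn
  -- `s₀` is univalent and its range contains a ball
  have hs₀inj : InjOn s₀ disc := by
    intro z hz w hw hzw
    apply hinj 0 hz hw
    have h1 := hs₀ z hz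
    have h2 := hs₀ w hw
    rw [hzw, h2] at h1
    linear_combination (-1 : ℂ) * h1
  obtain ⟨δ, hδ, hball⟩ : ∃ δ > 0, ball (s₀ 0) δ ⊆ s₀ '' disc := by
    have h1 := nhds_le_map isOpen_ball hs₀d hs₀inj hz0
    exact Metric.mem_nhds_iff.1 (h1 (image_mem_map (isOpen_ball.mem_nhds hz0)))
  have hlow : ∀ n, ∀ z ∈ disc, δ ≤ ‖s n z + s₀ 0‖ := by
    intro n z hz
    by_contra hcon
    push Not at hcon
    have h1 : -s n z ∈ ball (s₀ 0) δ := by
      rw [mem_ball, dist_eq_norm, ← norm_neg]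
      rwa [show -(-s n z - s₀ 0) = s n z + s₀ 0 by ring]
    obtain ⟨w, hw, hwz⟩ := hball h1
    rw [← hscomp n w hw] at hwz
    have h2 := hs n z hz
    have h3 := hs n _ (hτ0 n w hw).1
    rw [hwz, neg_sq, h2] at h3
    have h4 : z = φ^[n] w := hinj n hz (hτ0 n w hw).1 (by linear_combination h3)
    rw [← h4] at hwz
    have h5 : s n z = 0 := by linear_combination (1 / 2 : ℂ) * hwz
    rw [h5] at h2
    exact sub_ne_zero.2 (hq n z hz) (by simpa using h2.symm)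
  have hlowne : ∀ n, ∀ z ∈ disc, s n z + s₀ 0 ≠ 0 := by
    intro n z hz h1
    have := hlow n z hz
    rw [h1, norm_zero] at this
    linarith
  have hs0eq : ∀ z ∈ disc, s 0 z = s₀ z := fun z hz => hscomp 0 z hz
  have hlow0 : ∀ z ∈ disc, δ ≤ ‖s₀ z + s₀ 0‖ := fun z hz => by rw [← hs0eq z hz]; exact hlow 0 z hz
  have hlowne0 : ∀ z ∈ disc, s₀ z + s₀ 0 ≠ 0 := fun z hz => by rw [← hs0eq z hz]; exact hlowne 0 z hz
  have hbound : ∀ x : ℂ, δ ≤ ‖x‖ → ‖x⁻¹‖ ≤ 1 / δ := by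
    intro x hx
    rw [norm_inv, ← one_div]
    exact one_div_le_one_div_of_le hδ hx
  refine ⟨fun z => (s₀ z + s₀ 0)⁻¹, fun n z => (s n z + s₀ 0)⁻¹, 1 / δ, ?_, ?_, ?_, ?_, ?_, ?_⟩
  · exact fun n => ((hsd n).add_const _).inv (hlowne n)
  · exact fun n z hz => hbound _ (hlow n z hz)
  · intro n z hz
    simp only
    rw [hscomp n z hz]
  · exact (hs₀d.add_const _).inv hlowne0
  · exact fun z hz => hbound _ (hlow0 z hz)
  · intro w hw
    have hne : ∀ z ∈ disc, 1 - lam * z ≠ 0 := by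
      intro z hz h1
      have h2 : lam * z = 1 := (sub_eq_zero.1 h1).symm
      have h3 : ‖lam * z‖ = 1 := by rw [h2, norm_one]
      rw [norm_mul] at h3
      have h4 := mem_disc.1 hz
      have h5 : ‖lam‖ * ‖z‖ ≤ 1 * ‖z‖ := mul_le_mul_of_nonneg_right hlam (norm_nonneg _)
      linarith
    set A : ℝ := ‖s₀ 0‖ + ‖s₀ w‖ with hA
    refine ⟨fun z => (s₀ z + s₀ 0) * (s₀ z + s₀ w) * (1 - lam * z) * ((s₀ w + s₀ 0) * (1 - lam * w)),
      (2 * (1 + 2 * ‖q‖) + 4 * A ^ 2) * ‖(s₀ w + s₀ 0) * (1 - lam * w)‖, ?_, ?_, ?_⟩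
    · exact ((((hs₀d.add_const _).mul (hs₀d.add_const _)).mul
        (((differentiable_id.const_mul lam).const_sub 1).differentiableOn))).mul_const _
    · intro z hz
      rw [norm_mul]
      refine mul_le_mul_of_nonneg_right ?_ (norm_nonneg _)
      rw [norm_mul, norm_mul]
      have hz1 := (mem_disc.1 hz).le
      have hQ : ‖1 - lam * z‖ ≤ 2 := by
        calc ‖1 - lam * z‖ ≤ ‖(1 : ℂ)‖ + ‖lam * z‖ := norm_sub_le _ _
          _ ≤ 1 + 1 := by
            rw [norm_one, norm_mul]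
            have : ‖lam‖ * ‖z‖ ≤ 1 * 1 := mul_le_mul hlam hz1 (norm_nonneg _) (by norm_num)
            linarith
          _ = 2 := by norm_num
      have hsQ : ‖s₀ z‖ ^ 2 * ‖1 - lam * z‖ ≤ 1 + 2 * ‖q‖ := by
        rw [← norm_pow, ← norm_mul, hs₀ z hz, h0 z hz]
        have e : (-z / (1 - lam * z) - q) * (1 - lam * z) = -z - q * (1 - lam * z) := by
          rw [sub_mul, div_mul_cancel₀ _ (hne z hz)]
        rw [e]
        calc ‖-z - q * (1 - lam * z)‖ ≤ ‖-z‖ + ‖q * (1 - lam * z)‖ := norm_sub_le _ _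
          _ ≤ 1 + ‖q‖ * 2 := by
            rw [norm_neg, norm_mul]
            exact add_le_add hz1 (mul_le_mul_of_nonneg_left hQ (norm_nonneg _))
          _ = 1 + 2 * ‖q‖ := by ring
      have h1 : ‖s₀ z + s₀ 0‖ ≤ ‖s₀ z‖ + A := (norm_add_le _ _).trans (by
        have := norm_nonneg (s₀ w); linarith)
      have h2 : ‖s₀ z + s₀ w‖ ≤ ‖s₀ z‖ + A := (norm_add_le _ _).trans (by
        have := norm_nonneg (s₀ 0); linarith)
      have hA0 : 0 ≤ A := by positivity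
      have h3 : ‖s₀ z + s₀ 0‖ * ‖s₀ z + s₀ w‖ ≤ 2 * ‖s₀ z‖ ^ 2 + 2 * A ^ 2 := by
        calc ‖s₀ z + s₀ 0‖ * ‖s₀ z + s₀ w‖ ≤ (‖s₀ z‖ + A) * (‖s₀ z‖ + A) :=
              mul_le_mul h1 h2 (norm_nonneg _) (by positivity)
          _ ≤ 2 * ‖s₀ z‖ ^ 2 + 2 * A ^ 2 := by nlinarith [sq_nonneg (‖s₀ z‖ - A)]
      calc ‖s₀ z + s₀ 0‖ * ‖s₀ z + s₀ w‖ * ‖1 - lam * z‖
          ≤ (2 * ‖s₀ z‖ ^ 2 + 2 * A ^ 2) * ‖1 - lam * z‖ :=
            mul_le_mul_of_nonneg_right h3 (norm_nonneg _)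
        _ = 2 * (‖s₀ z‖ ^ 2 * ‖1 - lam * z‖) + 2 * A ^ 2 * ‖1 - lam * z‖ := by ring
        _ ≤ 2 * (1 + 2 * ‖q‖) + 2 * A ^ 2 * 2 := by
          refine add_le_add (mul_le_mul_of_nonneg_left hsQ (by norm_num)) ?_
          exact mul_le_mul_of_nonneg_left hQ (by positivity)
        _ = 2 * (1 + 2 * ‖q‖) + 4 * A ^ 2 := by ring
    · intro z hz
      have h1 := hlowne0 z hz
      have h2 := hlowne0 w hw
      have h3 := hne z hz
      have h4 := hne w hw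
      have h5 := hs₀ z hz
      have h6 := hs₀ w hw
      rw [h0 z hz] at h5
      rw [h0 w hw] at h6
      have h7 : (s₀ w ^ 2 - s₀ z ^ 2) * ((1 - lam * z) * (1 - lam * w)) = z - w := by
        rw [h5, h6]
        have e1 : -z / (1 - lam * z) * (1 - lam * z) = -z := div_mul_cancel₀ _ h3
        have e2 : -w / (1 - lam * w) * (1 - lam * w) = -w := div_mul_cancel₀ _ h4
        linear_combination (1 - lam * z) * e2 - (1 - lam * w) * e1
      have h8 : ((s₀ z + s₀ 0)⁻¹ - (s₀ w + s₀ 0)⁻¹) * ((s₀ z + s₀ 0) * (s₀ w + s₀ 0)) = s₀ w - s₀ z := by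
        rw [sub_mul, ← mul_assoc, inv_mul_cancel₀ h1, mul_comm (s₀ z + s₀ 0), ← mul_assoc,
          inv_mul_cancel₀ h2]
        ring
      simp only
      rw [← h7]
      linear_combination (s₀ z + s₀ w) * (1 - lam * z) * (1 - lam * w) * h8

end

end Pool.Agent.Helper47.WCO
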