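import Mathlib

/-!
Spectral subspaces of a normal operator, described by the growth of `‖Tⁿ x‖`.
-/

set_option autoImplicit false

namespace Pool.Agent.Helper47.WCO

open Filter Topology ContinuousLinearMap
open scoped InnerProductSpace

section

variable {H : Type*} [NormedAddCommGroup H] [InnerProductSpace ℂ H] [CompleteSpace H]

/-- The subspace of vectors with `‖Tⁿ x‖² ≤ C tⁿ`. -/
def growth (T : H →L[ℂ] H) (t : ℝ) : Submodule ℂ H where
  carrier := {x | ∃ C : ℝ, ∀ n : ℕ, ‖(T ^ n) x‖ ^ 2 ≤ C * t ^ n}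
  add_mem' := by
    rintro x y ⟨C, hC⟩ ⟨D, hD⟩
    refine ⟨2 * C + 2 * D, fun n => ?_⟩
    rw [map_add]
    have h1 : ‖(T ^ n) x + (T ^ n) y‖ ^ 2 ≤ (‖(T ^ n) x‖ + ‖(T ^ n) y‖) ^ 2 :=
      pow_le_pow_left₀ (norm_nonneg _) (norm_add_le _ _) 2
    nlinarith [hC n, hD n, sq_nonneg (‖(T ^ n) x‖ - ‖(T ^ n) y‖)]
  zero_mem' := ⟨0, fun n => by simp⟩
  smul_mem' := by
    rintro c x ⟨C, hC⟩
    refine ⟨‖c‖ ^ 2 * C, fun n => ?_⟩
    rw [map_smul, norm_smul, mul_pow, mul_assoc]
    exact mul_le_mul_of_nonneg_left (hC n) (by positivity)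

omit [CompleteSpace H] in
lemma mem_growth {T : H →L[ℂ] H} {t : ℝ} {x : H} :
    x ∈ growth T t ↔ ∃ C : ℝ, ∀ n : ℕ, ‖(T ^ n) x‖ ^ 2 ≤ C * t ^ n := Iff.rfl

lemma star_mul_pow {T : H →L[ℂ] H} (hT : IsStarNormal T) (n : ℕ) :
    (star T * T) ^ n = star (T ^ n) * T ^ n := by
  rw [star_pow, hT.star_comm_self.mul_pow]

lemma isStarNormal_pow {T : H →L[ℂ] H} (hT : IsStarNormal T) (n : ℕ) : IsStarNormal (T ^ n) := by
  refine ⟨?_⟩
  rw [star_pow]
  exact hT.star_comm_self.pow_pow n n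

lemma norm_star_apply {T : H →L[ℂ] H} (hT : IsStarNormal T) (x : H) : ‖(star T) x‖ = ‖T x‖ := by
  rw [star_eq_adjoint]
  exact (isStarNormal_iff_norm_eq_adjoint.1 hT x).symm

lemma norm_star_mul_pow_apply {T : H →L[ℂ] H} (hT : IsStarNormal T) (n : ℕ) (x : H) :
    ‖((star T * T) ^ n) x‖ = ‖(T ^ (n + n)) x‖ := by
  rw [star_mul_pow hT, pow_add]
  show ‖(star (T ^ n)) ((T ^ n) x)‖ = ‖(T ^ n) ((T ^ n) x)‖
  exact norm_star_apply (isStarNormal_pow hT n) _

lemma norm_sq_pow_apply_le {T : H →L[ℂ] H} (hT : IsStarNormal T) (n : ℕ) (x : H) :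
    ‖(T ^ n) x‖ ^ 2 ≤ ‖((star T * T) ^ n) x‖ * ‖x‖ := by
  have h1 : ⟪((star T * T) ^ n) x, x⟫_ℂ = ((‖(T ^ n) x‖ ^ 2 : ℝ) : ℂ) := by
    rw [star_mul_pow hT]
    show ⟪(star (T ^ n)) ((T ^ n) x), x⟫_ℂ = _
    rw [star_eq_adjoint, adjoint_inner_left, inner_self_eq_norm_sq_to_K]
    norm_cast
  have h2 := norm_inner_le_norm (𝕜 := ℂ) (((star T * T) ^ n) x) x
  rw [h1, Complex.norm_real, Real.norm_eq_abs, abs_of_nonneg (by positivity)] at h2
  exact h2

/-- Spectral alternative: either `T* T` is scalar, or some growth subspace is nontrivial and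
not dense. -/
theorem exists_growth {T : H →L[ℂ] H} (hT : IsStarNormal T)
    (hsc : ¬ ∃ c : ℝ, star T * T = algebraMap ℝ (H →L[ℂ] H) c) :
    ∃ t : ℝ, growth T t ≠ ⊥ ∧ (growth T t).topologicalClosure ≠ ⊤ := by
  set B := star T * T with hB
  have hBsa : IsSelfAdjoint B := IsSelfAdjoint.star_mul_self T
  have hBnn : ∀ x ∈ spectrum ℝ B, 0 ≤ x := spectrum_star_mul_self_nonneg
  -- two points of the spectrum
  obtain ⟨α, hα, β, hβ, hαβ⟩ : ∃ α ∈ spectrum ℝ B, ∃ β ∈ spectrum ℝ B, α < β := by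
    by_contra hcon
    push Not at hcon
    apply hsc
    rcases (spectrum ℝ B).eq_empty_or_nonempty with h | ⟨a, ha⟩
    · exact ⟨0, CFC.eq_algebraMap_of_spectrum_subset_singleton B 0 (by rw [h]; simp)⟩
    · refine ⟨a, CFC.eq_algebraMap_of_spectrum_subset_singleton B a ?_⟩
      intro b hb
      exact le_antisymm (hcon a ha b hb) (hcon b hb a ha)
  obtain ⟨t₁, h1, h2⟩ := exists_between hαβ
  obtain ⟨t₂, h3, h4⟩ := exists_between h2
  have ht₁ : 0 < t₁ := (hBnn α hα).trans_lt h1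
  have ht₂ : 0 < t₂ := ht₁.trans h3
  refine ⟨t₁, ?_, ?_⟩
  · -- nontrivial
    set f₁ : ℝ → ℝ := fun s => max (t₁ - s) 0 with hf₁
    have hf₁c : Continuous f₁ := by fun_prop
    have hne : cfc f₁ B ≠ 0 := by
      intro h0
      have h5 : f₁ α ∈ spectrum ℝ (cfc f₁ B) := by
        rw [cfc_map_spectrum f₁ B]
        exact ⟨α, hα, rfl⟩
      rw [h0] at h5
      have h6 : f₁ α ≠ 0 := by
        have : 0 < t₁ - α := by linarith
        exact (lt_of_lt_of_le this (le_max_left _ _)).ne'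
      have h7 : IsUnit (algebraMap ℝ (H →L[ℂ] H) (f₁ α) - 0) := by
        rw [sub_zero]
        exact (IsUnit.mk0 _ h6).map (algebraMap ℝ (H →L[ℂ] H))
      exact h5 h7
    obtain ⟨y, hy⟩ : ∃ y, cfc f₁ B y ≠ 0 := by
      by_contra hcon
      push Not at hcon
      exact hne (ContinuousLinearMap.ext hcon)
    intro hbot
    apply hy
    have hmem : cfc f₁ B y ∈ growth T t₁ := by
      refine ⟨t₁ * ‖y‖ * ‖cfc f₁ B y‖, fun n => ?_⟩
      have h5 := norm_sq_pow_apply_le hT n (cfc f₁ B y)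
      have h6 : ‖(B ^ n) (cfc f₁ B y)‖ ≤ t₁ ^ n * t₁ * ‖y‖ := by
        have h7 : B ^ n * cfc f₁ B = cfc (fun s => s ^ n * f₁ s) B := by
          rw [cfc_mul (fun s => s ^ n) f₁ B (by fun_prop) (by fun_prop), cfc_pow_id B n]
        have h8 : (B ^ n) (cfc f₁ B y) = (cfc (fun s => s ^ n * f₁ s) B) y := by
          rw [← h7]; rfl
        rw [h8]
        refine (ContinuousLinearMap.le_opNorm _ _).trans ?_
        refine mul_le_mul_of_nonneg_right ?_ (norm_nonneg _)
        refine norm_cfc_le (by positivity) fun s hs => ?_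
        have hs0 := hBnn s hs
        rw [Real.norm_eq_abs, abs_mul, abs_pow, abs_of_nonneg hs0,
          abs_of_nonneg (show 0 ≤ f₁ s from le_max_right _ _)]
        rcases le_total s t₁ with h9 | h9
        · refine mul_le_mul (pow_le_pow_left₀ hs0 h9 n) ?_ (le_max_right _ _) (by positivity)
          exact max_le (by linarith) ht₁.le
        · have : f₁ s = 0 := max_eq_right (by linarith)
          rw [this, mul_zero]; positivity
      calc ‖(T ^ n) (cfc f₁ B y)‖ ^ 2 ≤ ‖(B ^ n) (cfc f₁ B y)‖ * ‖cfc f₁ B y‖ := h5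
        _ ≤ (t₁ ^ n * t₁ * ‖y‖) * ‖cfc f₁ B y‖ := mul_le_mul_of_nonneg_right h6 (norm_nonneg _)
        _ = t₁ * ‖y‖ * ‖cfc f₁ B y‖ * t₁ ^ n := by ring
    rw [hbot] at hmem
    exact (Submodule.mem_bot ℂ).1 hmem
  · -- not dense
    set f₂ : ℝ → ℝ := fun s => max (s - t₂) 0 with hf₂
    have hf₂c : Continuous f₂ := by fun_prop
    have hne : cfc f₂ B ≠ 0 := by
      intro h0
      have h5 : f₂ β ∈ spectrum ℝ (cfc f₂ B) := by
        rw [cfc_map_spectrum f₂ B]
        exact ⟨β, hβ, rfl⟩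
      rw [h0] at h5
      have h6 : f₂ β ≠ 0 := by
        have : 0 < β - t₂ := by linarith
        exact (lt_of_lt_of_le this (le_max_left _ _)).ne'
      have h7 : IsUnit (algebraMap ℝ (H →L[ℂ] H) (f₂ β) - 0) := by
        rw [sub_zero]
        exact (IsUnit.mk0 _ h6).map (algebraMap ℝ (H →L[ℂ] H))
      exact h5 h7
    -- bound of `f₂` on the spectrum
    obtain ⟨M, hM⟩ : ∃ M : ℝ, ∀ s ∈ spectrum ℝ B, f₂ s ≤ M := by
      have hcomp : IsCompact (spectrum ℝ B) := spectrum.isCompact B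
      obtain ⟨M, hM⟩ := hcomp.exists_bound_of_continuousOn hf₂c.continuousOn
      exact ⟨M, fun s hs => (le_abs_self _).trans (hM s hs)⟩
    have hM0 : 0 ≤ M := (le_max_right _ _).trans (hM β hβ)
    have hker : ∀ x ∈ growth T t₁, cfc f₂ B x = 0 := by
      rintro x ⟨C, hC⟩
      have hbd : ∀ n : ℕ, ‖cfc f₂ B x‖ ≤ M * Real.sqrt C * (t₁ / t₂) ^ n := by
        intro n
        set hn : ℝ → ℝ := fun s => f₂ s * ((max s t₂) ^ n)⁻¹ with hhn
        have hnc : Continuous hn := by
          refine hf₂c.mul (Continuous.inv₀ (by fun_prop) fun s => ?_)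
          have : 0 < max s t₂ := lt_of_lt_of_le ht₂ (le_max_right _ _)
          positivity
        have h5 : cfc hn B * B ^ n = cfc f₂ B := by
          have e1 : B ^ n = cfc (fun s : ℝ => s ^ n) B := (cfc_pow_id B n).symm
          rw [e1, ← cfc_mul hn (fun s : ℝ => s ^ n) B hnc.continuousOn (by fun_prop)]
          refine cfc_congr fun s _ => ?_
          simp only [hhn]
          rcases le_total s t₂ with h6 | h6
          · have : f₂ s = 0 := max_eq_right (by linarith)
            rw [this]; ring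
          · rw [max_eq_left h6, mul_assoc, inv_mul_cancel₀ (by have := ht₂.trans_le h6; positivity),
              mul_one]
        have h6 : cfc f₂ B x = (cfc hn B) ((B ^ n) x) := by
          rw [← h5]; rfl
        have h7 : ‖cfc hn B‖ ≤ M * (t₂ ^ n)⁻¹ := by
          refine norm_cfc_le (by positivity) fun s hs => ?_
          rw [Real.norm_eq_abs, hhn]
          simp only
          rw [abs_mul, abs_of_nonneg (show 0 ≤ f₂ s from le_max_right _ _), abs_inv, abs_pow,
            abs_of_nonneg (ht₂.le.trans (le_max_right _ _))]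
          refine mul_le_mul (hM s hs) ?_ (by positivity) hM0
          exact inv_anti₀ (by positivity) (pow_le_pow_left₀ ht₂.le (le_max_right _ _) n)
        have h8 : ‖(B ^ n) x‖ ≤ Real.sqrt C * t₁ ^ n := by
          rw [hB, norm_star_mul_pow_apply hT]
          have h9 := hC (n + n)
          have h10 := Real.sqrt_le_sqrt h9
          rw [Real.sqrt_sq (norm_nonneg _), Real.sqrt_mul' _ (by positivity),
            show t₁ ^ (n + n) = t₁ ^ n * t₁ ^ n from pow_add _ _ _,
            Real.sqrt_mul_self (by positivity)] at h10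
          exact h10
        rw [h6]
        calc ‖(cfc hn B) ((B ^ n) x)‖ ≤ ‖cfc hn B‖ * ‖(B ^ n) x‖ := ContinuousLinearMap.le_opNorm _ _
          _ ≤ (M * (t₂ ^ n)⁻¹) * (Real.sqrt C * t₁ ^ n) :=
            mul_le_mul h7 h8 (norm_nonneg _) (by positivity)
          _ = M * Real.sqrt C * (t₁ / t₂) ^ n := by
            rw [div_pow]; field_simp
      have hlim : Tendsto (fun n : ℕ => M * Real.sqrt C * (t₁ / t₂) ^ n) atTop (𝓝 0) := by
        have h5 : t₁ / t₂ < 1 := (div_lt_one ht₂).2 h3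
        have := (tendsto_pow_atTop_nhds_zero_of_lt_one (by positivity) h5).const_mul (M * Real.sqrt C)
        simpa using this
      have h6 := ge_of_tendsto' hlim hbd
      exact norm_le_zero_iff.1 h6
    intro htop
    apply hne
    have hclosed : IsClosed {x | cfc f₂ B x = 0} := isClosed_eq (by fun_prop) continuous_const
    have hsub : ((growth T t₁).topologicalClosure : Set H) ⊆ {x | cfc f₂ B x = 0} := by
      rw [Submodule.topologicalClosure_coe]
      exact closure_minimal hker hclosed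
    refine ContinuousLinearMap.ext fun x => ?_
    have : x ∈ ((growth T t₁).topologicalClosure : Set H) := by
      rw [htop]; trivial
    exact hsub this

end

end Pool.Agent.Helper47.WCO
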