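import Pool.Agent.Helper47.WCO.Seq
import Pool.Agent.Helper47.WCO.Mult
import Pool.Agent.Helper47.WCO.Root
import Pool.Agent.Helper47.WCO.Spec

/-!
Normal weighted composition operators on `H²`: the composition symbol is linear fractional.
-/

set_option autoImplicit false

namespace Pool.Agent.Helper47.WCO

open Filter Topology ComplexConjugate ContinuousLinearMap
open scoped ENNReal InnerProductSpace

/-- The monomial `z ^ n`. -/
noncomputable def mono (n : ℕ) : H2 := lp.single 2 n (1 : ℂ)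

lemma ev_mono (n : ℕ) {z : ℂ} (hz : ‖z‖ < 1) : ev (mono n) z = z ^ n := by
  rw [← inner_ker _ hz, mono, lp.inner_single_right, ker_apply hz, RCLike.inner_apply, map_pow,
    RingHomCompTriple.comp_apply, RingHom.id_apply, one_mul]

lemma inner_mono (u : H2) (n : ℕ) : ⟪u, mono n⟫_ℂ = conj (u n) := by
  rw [mono, lp.inner_single_right, RCLike.inner_apply, one_mul]

/-- A vector orthogonal to all multiples of `z - w` is a multiple of the kernel at `w`. -/
lemma eq_smul_ker {u : H2} {w : ℂ} (hw : ‖w‖ < 1)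
    (h : ∀ f F : H2, (∀ z, ‖z‖ < 1 → ev F z = (z - w) * ev f z) → ⟪u, F⟫_ℂ = 0) :
    u = u 0 • ker w := by
  have hstep : ∀ n, u (n + 1) = conj w * u n := by
    intro n
    have h1 := h (mono n) (mono (n + 1) - w • mono n) fun z hz => by
      rw [ev_sub _ _ hz, ev_smul _ _ hz, ev_mono _ hz, ev_mono _ hz]; ring
    rw [inner_sub_right, inner_smul_right, inner_mono, inner_mono] at h1
    have h2 := congrArg conj (sub_eq_zero.1 h1)
    rw [map_mul, Complex.conj_conj, Complex.conj_conj] at h2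
    exact h2
  ext n
  induction n with
  | zero => simp [ker_apply hw]
  | succ n ih =>
    rw [hstep, ih]
    simp only [lp.coeFn_smul, Pi.smul_apply, smul_eq_mul, ker_apply hw]
    ring

/-- A closed subspace reducing the multiplication by a sufficiently separating bounded function is
trivial. -/
theorem trivial_of_reducing {K : Submodule ℂ H2} (hK : IsClosed (K : Set H2)) {g : ℂ → ℂ}
    {M : H2 →L[ℂ] H2} (hM : ∀ f z, ‖z‖ < 1 → ev (M f) z = g z * ev f z)
    (hinv : ∀ x ∈ K, M x ∈ K) (hinv' : ∀ x ∈ K, adjoint M x ∈ K)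
    (hsep : ∀ w ∈ disc, ∃ (e : ℂ → ℂ) (C : ℝ), DifferentiableOn ℂ e disc ∧ (∀ z ∈ disc, ‖e z‖ ≤ C) ∧
        ∀ z ∈ disc, (g z - g w) * e z = z - w) : K = ⊥ ∨ K = ⊤ := by
  have hcomplete : CompleteSpace K := hK.completeSpace_coe
  have hMker : ∀ w, ‖w‖ < 1 → adjoint M (ker w) = conj (g w) • ker w := by
    intro w hw
    refine ext_inner_right ℂ fun f => ?_
    rw [adjoint_inner_left, inner_ker _ hw, hM f w hw, inner_smul_left, inner_ker _ hw]
    simp
  have hdich : ∀ w, ‖w‖ < 1 → ker w ∈ K ∨ ker w ∈ Kᗮ := by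
    intro w hw
    set u := K.starProjection (ker w) with hu
    have huK : u ∈ K := K.starProjection_apply_mem _
    have hvK : ker w - u ∈ Kᗮ := K.sub_starProjection_mem_orthogonal _
    have hv' : adjoint M (ker w - u) ∈ Kᗮ := by
      rw [Submodule.mem_orthogonal] at hvK ⊢
      intro x hx
      rw [adjoint_inner_right]
      exact hvK _ (hinv x hx)
    have hzero : adjoint M u - conj (g w) • u = 0 := by
      have h1 : adjoint M u - conj (g w) • u ∈ K := K.sub_mem (hinv' u huK) (K.smul_mem _ huK)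
      have h2 : adjoint M u - conj (g w) • u ∈ Kᗮ := by
        have h3 : adjoint M u - conj (g w) • u
            = conj (g w) • (ker w - u) - adjoint M (ker w - u) := by
          rw [map_sub, hMker w hw, smul_sub]
          abel
        rw [h3]
        exact Kᗮ.sub_mem (Kᗮ.smul_mem _ hvK) hv'
      have h4 := Submodule.inner_right_of_mem_orthogonal h1 h2
      exact inner_self_eq_zero.1 h4
    have hcoef : u = u 0 • ker w := by
      refine eq_smul_ker hw fun f F hF => ?_
      obtain ⟨e, C, he1, he2, he3⟩ := hsep w (mem_disc.2 hw)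
      obtain ⟨E, _, hE⟩ := exists_mulOp he1 he2
      have hFE : F = M (E f) - g w • E f := by
        refine ev_injective fun z hz => ?_
        rw [hF z hz, ev_sub _ _ hz, ev_smul _ _ hz, hM _ z hz, hE _ z hz, ← he3 z (mem_disc.2 hz)]
        ring
      rw [hFE, inner_sub_right, inner_smul_right, ← adjoint_inner_left, sub_eq_zero.1 hzero,
        inner_smul_left]
      simp
    by_cases h0 : u 0 = 0
    · right
      rw [h0, zero_smul] at hcoef
      rwa [hcoef, sub_zero] at hvK
    · left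
      have h1 : ker w = (u 0)⁻¹ • u := by
        rw [eq_inv_smul_iff₀ h0, ← hcoef]
      rw [h1]
      exact K.smul_mem _ huK
  have h0 : ‖(0 : ℂ)‖ < 1 := by simp
  rcases hdich 0 h0 with h1 | h1
  · right
    have hall : ∀ w, ‖w‖ < 1 → ker w ∈ K := by
      intro w hw
      refine (hdich w hw).resolve_right fun h2 => ?_
      have h3 := Submodule.inner_right_of_mem_orthogonal h1 h2
      rw [inner_ker _ h0] at h3
      exact ev_ker_ne_zero hw h0 h3
    have h2 : Kᗮ = ⊥ := by
      rw [Submodule.eq_bot_iff]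
      intro f hf
      exact eq_zero_of_inner_ker fun w hw => Submodule.inner_right_of_mem_orthogonal (hall w hw) hf
    exact Submodule.orthogonal_eq_bot_iff.1 h2
  · left
    have hall : ∀ w, ‖w‖ < 1 → ker w ∈ Kᗮ := by
      intro w hw
      refine (hdich w hw).resolve_left fun h2 => ?_
      have h3 := Submodule.inner_right_of_mem_orthogonal h2 h1
      rw [inner_ker _ hw] at h3
      exact ev_ker_ne_zero h0 hw h3
    rw [Submodule.eq_bot_iff]
    intro f hf
    exact eq_zero_of_inner_ker fun w hw => Submodule.inner_left_of_mem_orthogonal hf (hall w hw)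

/-- The case `T* T` scalar. -/
theorem isLinearFractional_of_scalar {T : H2 →L[ℂ] H2} {ψ φ : ℂ → ℂ} (h : WCOData T ψ φ)
    {c : ℝ} (hc : star T * T = algebraMap ℝ (H2 →L[ℂ] H2) c) : IsLinearFractional φ := by
  have hstar : ∀ x, T (adjoint T x) = (c : ℂ) • x := by
    intro x
    have h1 : (T * star T) x = (algebraMap ℝ (H2 →L[ℂ] H2) c) x := by
      rw [← hc, h.normal.star_comm_self.eq]
    rw [star_eq_adjoint, Algebra.algebraMap_eq_smul_one] at h1
    show (T * adjoint T) x = _
    rw [h1]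
    show c • x = (c : ℂ) • x
    exact (Complex.coe_smul c x).symm
  have hne0 : (c : ℂ) ≠ 0 := by
    intro h0
    have h1 := hstar (ker 0)
    rw [h0, zero_smul] at h1
    exact ker_ne_zero (by simp) (h.eq_zero_of_adjoint_apply (h.eq_zero_of_apply h1))
  have hkey : ∀ w ∈ disc, ∀ z ∈ disc, ψ w * conj (ψ z) * (1 - conj z * w)
      = c * (1 - conj (φ z) * φ w) := by
    intro w hw z hz
    rw [mem_disc] at hw hz
    have h1 : ev (T (adjoint T (ker z))) w = c * ev (ker z) w := by
      rw [hstar, ev_smul _ _ hw]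
    rw [h.eval _ w hw, h.adjoint_ker hz, ev_smul _ _ (h.maps w hw), ev_ker (h.maps z hz) (h.maps w hw),
      ev_ker hz hw] at h1
    have h2 := one_sub_conj_mul_ne_zero (h.maps z hz).le (h.maps w hw)
    have h3 := one_sub_conj_mul_ne_zero hz.le hw
    have h4 : ψ w * (conj (ψ z) * (1 - conj (φ z) * φ w)⁻¹)
        = ψ w * conj (ψ z) / (1 - conj (φ z) * φ w) := by
      rw [div_eq_mul_inv]; ring
    rw [h4, ← div_eq_mul_inv, div_eq_div_iff h2 h3] at h1
    exact h1
  have hd0 : (0 : ℂ) ∈ disc := by simp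
  have hd1 : (1 / 2 : ℂ) ∈ disc := by rw [mem_disc]; norm_num
  have hψ0 : conj (ψ 0) ≠ 0 := by
    rw [map_ne_zero]; exact h.ne_zero 0 (by simp)
  have hψ1 : conj (ψ (1 / 2)) ≠ 0 := by
    rw [map_ne_zero]; exact h.ne_zero _ (mem_disc.1 hd1)
  set A : ℂ := conj (ψ (1 / 2)) / conj (ψ 0) with hA
  have hAne : A ≠ 0 := div_ne_zero hψ1 hψ0
  set α : ℂ := conj (φ 0) with hα
  set β : ℂ := conj (φ (1 / 2)) with hβ
  have hαβ : β - α ≠ 0 := by
    rw [hα, hβ, ← map_sub, map_ne_zero, sub_ne_zero]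
    intro h5
    have := h.inj hd1 hd0 h5
    norm_num at this
  have heq : ∀ w ∈ disc, A * (1 - α * φ w) * (1 - w / 2) = 1 - β * φ w := by
    intro w hw
    have e1 := hkey w hw 0 hd0
    have e2 := hkey w hw (1 / 2) hd1
    have e3 : conj (1 / 2 : ℂ) = 1 / 2 := by
      rw [map_div₀, map_one, map_ofNat]
    rw [e3] at e2
    rw [map_zero, zero_mul, sub_zero, mul_one] at e1
    have e4 : conj (ψ (1 / 2)) = A * conj (ψ 0) := by
      rw [hA, div_mul_cancel₀ _ hψ0]
    rw [e4] at e2
    apply mul_left_cancel₀ hne0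
    linear_combination e2 - A * (1 - w / 2) * e1
  refine ⟨A / 2, 1 - A, α * A / 2, β - α * A, ?_, fun w hw => ?_⟩
  · have : A / 2 * (β - α * A) - (1 - A) * (α * A / 2) = A / 2 * (β - α) := by ring
    rw [this]
    exact mul_ne_zero (div_ne_zero hAne two_ne_zero) hαβ
  · have e := heq w hw
    have hden : α * A / 2 * w + (β - α * A) ≠ 0 := by
      intro h0
      have h1 : A * (1 - w / 2) = 1 := by linear_combination e - φ w * h0
      apply hαβ
      linear_combination h0 + α * h1
    refine ⟨hden, ?_⟩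
    rw [eq_div_iff hden]
    linear_combination e

/-- The main theorem for `WCOData`. -/
theorem isLinearFractional_of_data {T : H2 →L[ℂ] H2} {ψ φ : ℂ → ℂ} (h : WCOData T ψ φ) :
    IsLinearFractional φ := by
  obtain ⟨lam, τ, hlam, h0, hd, hinj, hstep⟩ := h.exists_tau
  have hφ : ∀ z ∈ disc, φ z ∈ disc := fun z hz => h.mapsTo hz
  by_cases hex : ∀ x, ∃ n, ∃ z ∈ disc, τ n z = x
  · exact isLinearFractional_of_exhaust hlam hφ h0 hd hinj hstep hex
  push Not at hex
  obtain ⟨q, hq⟩ := hex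
  obtain ⟨g, gn, C, hgnd, hgnC, hgcomp, hgd, hgC, hsep⟩ :=
    exists_multipliers hlam hφ h.iterate_diff h0 hd hinj hstep hq
  have hC0 : 0 ≤ C := (norm_nonneg _).trans (hgC 0 (by simp))
  by_cases hsc : ∃ c : ℝ, star T * T = algebraMap ℝ (H2 →L[ℂ] H2) c
  · obtain ⟨c, hc⟩ := hsc
    exact isLinearFractional_of_scalar h hc
  exfalso
  obtain ⟨t, ht1, ht2⟩ := exists_growth h.normal hsc
  obtain ⟨M, hMC, hM⟩ := exists_mulOp hgd hgC
  -- invariance of the growth subspace
  have hb1 : ∀ n f, ‖(T ^ n) (M f)‖ ≤ C * ‖(T ^ n) f‖ := by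
    intro n f
    obtain ⟨M', hM'C, hM'⟩ := exists_mulOp (h := fun z => g (φ^[n] z)) (C := C)
      (hgd.comp (h.iterate_diff n) (h.iterate_mapsTo n))
      (fun z hz => hgC _ (h.iterate_mapsTo n hz))
    have : (T ^ n) (M f) = M' ((T ^ n) f) := by
      refine ev_injective fun z hz => ?_
      rw [(h.pow n).eval _ z hz, hM _ _ (h.iterate_maps n z hz), hM' _ z hz, (h.pow n).eval _ z hz]
      ring
    rw [this]
    exact hM'C _
  have hb2 : ∀ n f, ‖(T ^ n) (adjoint M f)‖ ≤ C * ‖(T ^ n) f‖ := by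
    intro n f
    obtain ⟨Mn, hMnC, hMn⟩ := exists_mulOp (hgnd n) (hgnC n)
    have hcomm : M * T ^ n = T ^ n * Mn := by
      refine ContinuousLinearMap.ext fun x => ?_
      show M ((T ^ n) x) = (T ^ n) (Mn x)
      refine ev_injective fun z hz => ?_
      rw [hM _ z hz, (h.pow n).eval _ z hz, (h.pow n).eval _ z hz, hMn _ _ (h.iterate_maps n z hz),
        hgcomp n z (mem_disc.2 hz)]
      ring
    have hnorm : ‖star Mn‖ ≤ C := by
      rw [star_eq_adjoint, LinearIsometryEquiv.norm_map]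
      exact ContinuousLinearMap.opNorm_le_bound _ hC0 hMnC
    have hN := isStarNormal_pow h.normal n
    calc ‖(T ^ n) (adjoint M f)‖ = ‖(star (T ^ n)) (adjoint M f)‖ := (norm_star_apply hN _).symm
      _ = ‖(star (M * T ^ n)) f‖ := by rw [star_mul, ← star_eq_adjoint]; rfl
      _ = ‖(star Mn) ((star (T ^ n)) f)‖ := by rw [hcomm, star_mul]; rfl
      _ ≤ C * ‖(star (T ^ n)) f‖ := (ContinuousLinearMap.le_opNorm _ _).trans
          (mul_le_mul_of_nonneg_right hnorm (norm_nonneg _))
      _ = C * ‖(T ^ n) f‖ := by rw [norm_star_apply hN]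
  have hinvg : ∀ (A : H2 →L[ℂ] H2), (∀ n f, ‖(T ^ n) (A f)‖ ≤ C * ‖(T ^ n) f‖) →
      ∀ x ∈ growth T t, A x ∈ growth T t := by
    rintro A hA x ⟨D, hD⟩
    refine ⟨C ^ 2 * D, fun n => ?_⟩
    calc ‖(T ^ n) (A x)‖ ^ 2 ≤ (C * ‖(T ^ n) x‖) ^ 2 := pow_le_pow_left₀ (norm_nonneg _) (hA n x) 2
      _ = C ^ 2 * ‖(T ^ n) x‖ ^ 2 := by ring
      _ ≤ C ^ 2 * (D * t ^ n) := mul_le_mul_of_nonneg_left (hD n) (by positivity)
      _ = C ^ 2 * D * t ^ n := by ring
  have hinvc : ∀ (A : H2 →L[ℂ] H2), (∀ n f, ‖(T ^ n) (A f)‖ ≤ C * ‖(T ^ n) f‖) →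
      ∀ x ∈ (growth T t).topologicalClosure, A x ∈ (growth T t).topologicalClosure := by
    intro A hA x hx
    exact map_mem_closure A.continuous hx (hinvg A hA)
  rcases trivial_of_reducing (growth T t).isClosed_topologicalClosure hM (hinvc M hb1)
    (hinvc (adjoint M) hb2) hsep with h1 | h1
  · apply ht1
    rw [Submodule.eq_bot_iff] at h1 ⊢
    intro x hx
    exact h1 x ((growth T t).le_topologicalClosure hx)
  · exact ht2 h1

end Pool.Agent.Helper47.WCO
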