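import Pool.Agent.Helper47.WCO.Basic

/-!
Normal weighted composition operators: the partner functions `a`, `b`.
-/

set_option autoImplicit false

namespace Pool.Agent.Helper47.WCO

open Filter Topology ComplexConjugate ContinuousLinearMap
open scoped ENNReal InnerProductSpace

/-- `N` is the weighted composition operator of `(ψ, φ)`, it is normal, `ψ` does not vanish and `φ`
is injective. -/
structure WCOData (N : H2 →L[ℂ] H2) (ψ φ : ℂ → ℂ) : Prop where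
  eval : ∀ f z, ‖z‖ < 1 → ev (N f) z = ψ z * ev f (φ z)
  maps : ∀ z, ‖z‖ < 1 → ‖φ z‖ < 1
  diff : DifferentiableOn ℂ φ disc
  normal : IsStarNormal N
  inj : Set.InjOn φ disc
  ne_zero : ∀ z, ‖z‖ < 1 → ψ z ≠ 0

namespace WCOData

variable {N : H2 →L[ℂ] H2} {ψ φ : ℂ → ℂ}

lemma mapsTo (h : WCOData N ψ φ) : Set.MapsTo φ disc disc :=
  fun z hz => mem_disc.2 (h.maps z (mem_disc.1 hz))

lemma continuousAt_zero (h : WCOData N ψ φ) : ContinuousAt φ 0 :=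
  h.diff.continuousOn.continuousAt (Metric.ball_mem_nhds _ one_pos)

lemma adjoint_ker_aux {N : H2 →L[ℂ] H2} {ψ φ : ℂ → ℂ}
    (heval : ∀ f z, ‖z‖ < 1 → ev (N f) z = ψ z * ev f (φ z))
    (hmaps : ∀ z, ‖z‖ < 1 → ‖φ z‖ < 1) {w : ℂ} (hw : ‖w‖ < 1) :
    adjoint N (ker w) = conj (ψ w) • ker (φ w) := by
  refine ext_inner_right ℂ fun f => ?_
  rw [adjoint_inner_left, inner_ker _ hw, heval f w hw, inner_smul_left, inner_ker _ (hmaps w hw)]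
  simp

lemma adjoint_ker (h : WCOData N ψ φ) {w : ℂ} (hw : ‖w‖ < 1) :
    adjoint N (ker w) = conj (ψ w) • ker (φ w) :=
  adjoint_ker_aux h.eval h.maps hw

lemma eq_zero_of_apply (h : WCOData N ψ φ) {f : H2} (hf : N f = 0) : f = 0 := by
  refine eq_zero_of_ev fun z hz => ?_
  refine eqOn_disc_of_comp (differentiableOn_ev f) (H := fun _ => 0)
    (differentiableOn_const _) h.continuousAt_zero h.mapsTo h.inj (fun z hz => ?_) z
    (mem_disc.2 hz)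
  have h1 := h.eval f z (mem_disc.1 hz)
  rw [hf, ev_zero'] at h1
  exact (mul_eq_zero.1 h1.symm).resolve_left (h.ne_zero z (mem_disc.1 hz))

lemma eq_zero_of_adjoint_apply (h : WCOData N ψ φ) {f : H2} (hf : adjoint N f = 0) : f = 0 :=
  h.eq_zero_of_apply ((h.normal.adjoint_apply_eq_zero_iff f).1 hf)

lemma denseRange (h : WCOData N ψ φ) : DenseRange N := by
  have h1 : N.rangeᗮ = ⊥ := by
    rw [orthogonal_range, Submodule.eq_bot_iff]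
    intro x hx
    exact h.eq_zero_of_adjoint_apply hx
  have h2 := Submodule.topologicalClosure_eq_top_iff.2 h1
  exact Submodule.dense_iff_topologicalClosure_eq_top.2 h2

lemma exists_V (h : WCOData N ψ φ) : ∃ V : H2 →L[ℂ] H2, (∀ x, V (N x) = adjoint N x) ∧
    (∀ x, N (V x) = adjoint N x) ∧ ∀ x, adjoint V x = 0 → x = 0 := by
  have hnorm : ∀ x, ‖(adjoint N : H2 →ₗ[ℂ] H2) x‖ ≤ 1 * ‖(N : H2 →ₗ[ℂ] H2) x‖ := by
    intro x
    rw [one_mul]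
    exact (isStarNormal_iff_norm_eq_adjoint.1 h.normal x).ge
  have hdense : DenseRange (N : H2 →ₗ[ℂ] H2) := h.denseRange
  let V := (adjoint N : H2 →ₗ[ℂ] H2).extendOfNorm (N : H2 →ₗ[ℂ] H2)
  have hV : ∀ x, V (N x) = adjoint N x := fun x =>
    LinearMap.extendOfNorm_eq hdense ⟨1, hnorm⟩ x
  have hcomm : ∀ x, N (adjoint N x) = adjoint N (N x) := by
    intro x
    have h1 := h.normal.star_comm_self
    have h2 : (adjoint N * N) x = (N * adjoint N) x := by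
      rw [← star_eq_adjoint]
      exact congrArg (fun A : H2 →L[ℂ] H2 => A x) h1.eq
    exact h2.symm
  refine ⟨V, hV, ?_, ?_⟩
  · intro x
    refine hdense.induction (P := fun x => N (V x) = adjoint N x) ?_ ?_ x
    · rintro _ ⟨y, rfl⟩
      show N (V (N y)) = adjoint N (N y)
      rw [hV, hcomm]
    · exact isClosed_eq (by fun_prop) (by fun_prop)
  · intro x hx
    apply h.eq_zero_of_apply
    refine ext_inner_right ℂ fun y => ?_
    rw [inner_zero_left, ← adjoint_inner_right, ← hV, ← adjoint_inner_left, hx, inner_zero_left]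

/-- The partner functions of a normal weighted composition operator. -/
theorem exists_ab (h : WCOData N ψ φ) : ∃ a b : ℂ → ℂ,
    DifferentiableOn ℂ a disc ∧ DifferentiableOn ℂ b disc ∧
    (∀ v ∈ disc, a (φ v) = ψ v ∧ b (φ v) = -v * ψ v) ∧
    (∀ ζ ∈ disc, ∀ w ∈ disc, a ζ + b ζ * conj (φ w) ≠ 0) ∧
    (∀ ζ₁ ∈ disc, ∀ ζ₂ ∈ disc, a ζ₁ * b ζ₂ = a ζ₂ * b ζ₁ → ζ₁ = ζ₂) := by
  obtain ⟨V, hV1, hV2, hV3⟩ := h.exists_V
  set U : ℂ → ℂ → ℂ := fun w ζ => ev (V (ker w)) ζ with hU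
  have hUdiff : ∀ w, DifferentiableOn ℂ (U w) disc := fun w => differentiableOn_ev _
  -- the basic relation
  have hrel : ∀ w ∈ disc, ∀ v ∈ disc, ψ v * U w (φ v) * (1 - conj (φ w) * v) = conj (ψ w) := by
    intro w hw v hv
    rw [mem_disc] at hw hv
    have h1 : ev (N (V (ker w))) v = ψ v * U w (φ v) := h.eval _ v hv
    rw [hV2, h.adjoint_ker hw, ev_smul _ _ hv, ev_ker (h.maps w hw) hv] at h1
    rw [← h1, mul_assoc, inv_mul_cancel₀ (one_sub_conj_mul_ne_zero (h.maps w hw).le hv), mul_one]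
  -- the three term relation
  have h3 : ∀ w₁ ∈ disc, ∀ w₂ ∈ disc, ∀ w₃ ∈ disc, ∀ ζ ∈ disc,
      (conj (φ w₂) - conj (φ w₃)) * conj (ψ w₁) * (U w₂ ζ * U w₃ ζ)
      + (conj (φ w₃) - conj (φ w₁)) * conj (ψ w₂) * (U w₁ ζ * U w₃ ζ)
      + (conj (φ w₁) - conj (φ w₂)) * conj (ψ w₃) * (U w₁ ζ * U w₂ ζ) = 0 := by
    intro w₁ hw₁ w₂ hw₂ w₃ hw₃
    refine eqOn_disc_of_comp (G := fun ζ => (conj (φ w₂) - conj (φ w₃)) * conj (ψ w₁) * (U w₂ ζ * U w₃ ζ)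
      + (conj (φ w₃) - conj (φ w₁)) * conj (ψ w₂) * (U w₁ ζ * U w₃ ζ)
      + (conj (φ w₁) - conj (φ w₂)) * conj (ψ w₃) * (U w₁ ζ * U w₂ ζ)) (H := fun _ => 0)
      ?_ (differentiableOn_const _) h.continuousAt_zero h.mapsTo h.inj ?_
    · exact ((((hUdiff w₂).mul (hUdiff w₃)).const_mul _).add
        (((hUdiff w₁).mul (hUdiff w₃)).const_mul _)).add (((hUdiff w₁).mul (hUdiff w₂)).const_mul _)
    · intro v hv
      show _ = (0 : ℂ)
      rw [← hrel w₁ hw₁ v hv, ← hrel w₂ hw₂ v hv, ← hrel w₃ hw₃ v hv]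
      ring
  -- adjoint form of `U`
  have hUadj : ∀ w ∈ disc, ∀ ζ ∈ disc, U w ζ = conj (ev (adjoint V (ker ζ)) w) := by
    intro w hw ζ hζ
    rw [mem_disc] at hw hζ
    rw [hU]
    simp only
    rw [← inner_ker _ hζ, ← inner_ker _ hw, inner_conj_symm, adjoint_inner_left]
  -- `U` does not vanish
  have hUne : ∀ w ∈ disc, ∀ ζ ∈ disc, U w ζ ≠ 0 := by
    intro w₁ hw₁ ζ hζ h0
    have hprod : ∀ w₂ ∈ disc, ∀ w₃ ∈ disc, w₂ ≠ w₃ → U w₂ ζ * U w₃ ζ = 0 := by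
      intro w₂ hw₂ w₃ hw₃ hne
      have h4 := h3 w₁ hw₁ w₂ hw₂ w₃ hw₃ ζ hζ
      rw [h0] at h4
      simp only [zero_mul, mul_zero, add_zero] at h4
      refine (mul_eq_zero.1 h4).resolve_left (mul_ne_zero ?_ ?_)
      · rw [← map_sub]
        rw [map_ne_zero, sub_ne_zero]
        exact fun h5 => hne (h.inj hw₂ hw₃ h5)
      · rw [map_ne_zero]
        exact h.ne_zero w₁ (mem_disc.1 hw₁)
    have hzero : ∀ w ∈ disc, U w ζ = 0 := by
      intro w hw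
      by_contra hne
      have hG : ContinuousAt (ev (adjoint V (ker ζ))) w :=
        ((differentiableOn_ev _).differentiableAt (Metric.isOpen_ball.mem_nhds hw)).continuousAt
      have hGne : ev (adjoint V (ker ζ)) w ≠ 0 := by
        intro h5
        apply hne
        rw [hUadj w hw ζ hζ, h5, map_zero]
      have h6 : ∀ᶠ w' in 𝓝[≠] w, ev (adjoint V (ker ζ)) w' ≠ 0 ∧ w' ∈ disc ∧ w' ≠ w := by
        filter_upwards [nhdsWithin_le_nhds (hG.eventually_ne hGne),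
          nhdsWithin_le_nhds (Metric.isOpen_ball.mem_nhds hw), self_mem_nhdsWithin] with w' h7 h8 h9
        exact ⟨h7, h8, h9⟩
      obtain ⟨w', h7, h8, h9⟩ := h6.exists
      have h10 := hprod w hw w' h8 (Ne.symm h9)
      rcases mul_eq_zero.1 h10 with h11 | h11
      · exact hne h11
      · rw [hUadj w' h8 ζ hζ] at h11
        exact h7 ((map_eq_zero _).1 h11)
    have h12 : adjoint V (ker ζ) = 0 := by
      refine eq_zero_of_ev fun w hw => ?_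
      have h13 := hzero w (mem_disc.2 hw)
      rw [hUadj w (mem_disc.2 hw) ζ hζ] at h13
      exact (map_eq_zero _).1 h13
    exact ker_ne_zero (mem_disc.1 hζ) (hV3 _ h12)
  -- definition of `a`, `b`
  have hw1 : (0 : ℂ) ∈ disc := by simp
  have hw2 : (1 / 2 : ℂ) ∈ disc := by
    rw [mem_disc]; norm_num
  set c₁ : ℂ := conj (φ 0) with hc₁
  set c₂ : ℂ := conj (φ (1 / 2)) with hc₂
  set p₁ : ℂ := conj (ψ 0) with hp₁
  set p₂ : ℂ := conj (ψ (1 / 2)) with hp₂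
  have hc : c₁ - c₂ ≠ 0 := by
    rw [hc₁, hc₂, ← map_sub, map_ne_zero, sub_ne_zero]
    intro h5
    have := h.inj hw1 hw2 h5
    norm_num at this
  have hU1 : ∀ ζ ∈ disc, U 0 ζ ≠ 0 := hUne 0 hw1
  have hU2 : ∀ ζ ∈ disc, U (1 / 2) ζ ≠ 0 := hUne _ hw2
  obtain ⟨a, ha⟩ : ∃ a : ℂ → ℂ, a = fun ζ => (c₁ * (p₂ * (U (1 / 2) ζ)⁻¹) - c₂ * (p₁ * (U 0 ζ)⁻¹))
      * (c₁ - c₂)⁻¹ := ⟨_, rfl⟩
  obtain ⟨b, hb⟩ : ∃ b : ℂ → ℂ, b = fun ζ => (p₁ * (U 0 ζ)⁻¹ - p₂ * (U (1 / 2) ζ)⁻¹)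
      * (c₁ - c₂)⁻¹ := ⟨_, rfl⟩
  have hab : ∀ w ∈ disc, ∀ ζ ∈ disc, (a ζ + b ζ * conj (φ w)) * U w ζ = conj (ψ w) := by
    intro w hw ζ hζ
    have h4 := h3 0 hw1 (1 / 2) hw2 w hw ζ hζ
    have h5 := hU1 ζ hζ
    have h6 := hU2 ζ hζ
    rw [ha, hb]
    simp only
    have e : (c₁ * (p₂ * (U (1 / 2) ζ)⁻¹) - c₂ * (p₁ * (U 0 ζ)⁻¹)) * (c₁ - c₂)⁻¹ +
        (p₁ * (U 0 ζ)⁻¹ - p₂ * (U (1 / 2) ζ)⁻¹) * (c₁ - c₂)⁻¹ * conj (φ w)
        = ((c₁ - conj (φ w)) * p₂ * U 0 ζ - (c₂ - conj (φ w)) * p₁ * U (1 / 2) ζ)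
          * (U 0 ζ * U (1 / 2) ζ * (c₁ - c₂))⁻¹ := by
      rw [mul_inv, mul_inv]
      field_simp
      ring
    rw [e, mul_assoc, mul_comm (_⁻¹) (U w ζ), ← mul_assoc, ← div_eq_mul_inv,
      div_eq_iff (mul_ne_zero (mul_ne_zero h5 h6) hc)]
    linear_combination (-1 : ℂ) * h4
  have hcomp : ∀ v ∈ disc, a (φ v) = ψ v ∧ b (φ v) = -v * ψ v := by
    intro v hv
    have hφv := h.mapsTo hv
    have h5 : p₁ * (U 0 (φ v))⁻¹ = ψ v * (1 - c₁ * v) := by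
      rw [mul_inv_eq_iff_eq_mul₀ (hU1 _ hφv), hp₁, ← hrel 0 hw1 v hv, hc₁]; ring
    have h6 : p₂ * (U (1 / 2) (φ v))⁻¹ = ψ v * (1 - c₂ * v) := by
      rw [mul_inv_eq_iff_eq_mul₀ (hU2 _ hφv), hp₂, ← hrel (1 / 2) hw2 v hv, hc₂]; ring
    rw [ha, hb]
    simp only
    rw [h5, h6]
    constructor
    · rw [mul_inv_eq_iff_eq_mul₀ hc]; ring
    · rw [mul_inv_eq_iff_eq_mul₀ hc]; ring
  have habne : ∀ ζ ∈ disc, ∀ w ∈ disc, a ζ + b ζ * conj (φ w) ≠ 0 := by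
    intro ζ hζ w hw h4
    have h5 := hab w hw ζ hζ
    rw [h4, zero_mul] at h5
    exact h.ne_zero w (mem_disc.1 hw) ((map_eq_zero _).1 h5.symm)
  refine ⟨a, b, ?_, ?_, hcomp, habne, ?_⟩
  · rw [ha]
    exact (((((hUdiff _).inv hU2).const_mul _).const_mul _).sub
      ((((hUdiff _).inv hU1).const_mul _).const_mul _)).mul_const _
  · rw [hb]
    exact ((((hUdiff _).inv hU1).const_mul _).sub (((hUdiff _).inv hU2).const_mul _)).mul_const _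
  · intro ζ₁ hζ₁ ζ₂ hζ₂ heq
    -- `U w ζ₂ = lam * U w ζ₁`
    set lam : ℂ := U 0 ζ₂ / U 0 ζ₁ with hlam
    have hUlam : ∀ w ∈ disc, U w ζ₂ = lam * U w ζ₁ := by
      intro w hw
      have e1 := hab w hw ζ₁ hζ₁
      have e2 := hab w hw ζ₂ hζ₂
      have e3 := hab 0 hw1 ζ₁ hζ₁
      have e4 := hab 0 hw1 ζ₂ hζ₂
      have n1 := habne ζ₁ hζ₁ w hw
      have n2 := habne ζ₂ hζ₂ w hw
      have n3 := habne ζ₁ hζ₁ 0 hw1
      have n4 := habne ζ₂ hζ₂ 0 hw1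
      have u1 := hUne 0 hw1 ζ₁ hζ₁
      rw [hlam, div_mul_eq_mul_div, eq_div_iff u1]
      -- `U w ζ₂ * U 0 ζ₁ = U 0 ζ₂ * U w ζ₁`
      have e5 : (a ζ₁ + b ζ₁ * conj (φ w)) * (a ζ₂ + b ζ₂ * conj (φ 0))
          = (a ζ₁ + b ζ₁ * conj (φ 0)) * (a ζ₂ + b ζ₂ * conj (φ w)) := by
        linear_combination (conj (φ 0) - conj (φ w)) * heq
      have hne : (a ζ₁ + b ζ₁ * conj (φ 0)) * (a ζ₂ + b ζ₂ * conj (φ w)) ≠ 0 := mul_ne_zero n3 n2
      apply mul_left_cancel₀ hne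
      calc (a ζ₁ + b ζ₁ * conj (φ 0)) * (a ζ₂ + b ζ₂ * conj (φ w)) * (U w ζ₂ * U 0 ζ₁)
          = ((a ζ₁ + b ζ₁ * conj (φ 0)) * U 0 ζ₁) * ((a ζ₂ + b ζ₂ * conj (φ w)) * U w ζ₂) := by ring
        _ = conj (ψ 0) * conj (ψ w) := by rw [e3, e2]
        _ = ((a ζ₂ + b ζ₂ * conj (φ 0)) * U 0 ζ₂) * ((a ζ₁ + b ζ₁ * conj (φ w)) * U w ζ₁) := by
            rw [e4, e1]
        _ = ((a ζ₁ + b ζ₁ * conj (φ w)) * (a ζ₂ + b ζ₂ * conj (φ 0))) * (U 0 ζ₂ * U w ζ₁) := by ring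
        _ = _ := by rw [e5]
    have hlamne : lam ≠ 0 := div_ne_zero (hUne 0 hw1 ζ₂ hζ₂) (hUne 0 hw1 ζ₁ hζ₁)
    have h5 : adjoint V (ker ζ₂) = conj lam • adjoint V (ker ζ₁) := by
      refine ev_injective fun w hw => ?_
      have h6 := hUlam w (mem_disc.2 hw)
      rw [hUadj w (mem_disc.2 hw) ζ₂ hζ₂, hUadj w (mem_disc.2 hw) ζ₁ hζ₁] at h6
      have h7 := congrArg conj h6
      rw [map_mul, Complex.conj_conj, Complex.conj_conj] at h7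
      rw [h7, ev_smul _ _ hw]
    have h6 : adjoint V (ker ζ₂ - conj lam • ker ζ₁) = 0 := by
      rw [map_sub, map_smul, h5, sub_self]
    have h7 := sub_eq_zero.1 (hV3 _ h6)
    have h8 : (1 : ℂ) • ker ζ₂ = conj lam • ker ζ₁ := by rw [one_smul, h7]
    exact (eq_of_ker_smul (mem_disc.1 hζ₂) (mem_disc.1 hζ₁) one_ne_zero h8).symm

end WCOData

end Pool.Agent.Helper47.WCO
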