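import Pool.Agent.Helper47.WCO.Oper

/-!
The sequence of univalent functions attached to a normal weighted composition operator.
-/

set_option autoImplicit false

namespace Pool.Agent.Helper47.WCO

open Filter Topology ComplexConjugate ContinuousLinearMap
open scoped ENNReal InnerProductSpace

/-- Identity theorem for a nonconstant inner function. -/
lemma eqOn_disc_of_comp' {G H χ : ℂ → ℂ} (hG : DifferentiableOn ℂ G disc)
    (hH : DifferentiableOn ℂ H disc) (hχ : DifferentiableOn ℂ χ disc) (hm : Set.MapsTo χ disc disc)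
    (hnc : ∃ z ∈ disc, χ z ≠ χ 0) (h : ∀ z ∈ disc, G (χ z) = H (χ z)) : ∀ z ∈ disc, G z = H z := by
  have h0 : (0 : ℂ) ∈ disc := by simp
  have h1 : AnalyticOnNhd ℂ G disc := hG.analyticOnNhd Metric.isOpen_ball
  have h2 : AnalyticOnNhd ℂ H disc := hH.analyticOnNhd Metric.isOpen_ball
  have h3 : IsPreconnected disc := (convex_ball (0 : ℂ) 1).isPreconnected
  have hχ' : AnalyticOnNhd ℂ χ disc := hχ.analyticOnNhd Metric.isOpen_ball
  have hcont : ContinuousAt χ 0 := (hχ' 0 h0).continuousAt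
  have hne : ∀ᶠ z in 𝓝[≠] (0 : ℂ), χ z ≠ χ 0 := by
    by_contra hcon
    rw [not_eventually] at hcon
    have hcon' : ∃ᶠ z in 𝓝[≠] (0 : ℂ), χ z = (fun _ => χ 0) z := by
      refine hcon.mono fun z hz => ?_
      push Not at hz
      exact hz
    obtain ⟨z, hz, hz'⟩ := hnc
    exact hz' (hχ'.eqOn_of_preconnected_of_frequently_eq analyticOnNhd_const h3 h0 hcon' hz)
  refine h1.eqOn_of_preconnected_of_frequently_eq h2 h3 (hm h0) ?_
  have h4 : Tendsto χ (𝓝[≠] 0) (𝓝[≠] (χ 0)) :=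
    tendsto_nhdsWithin_iff.2 ⟨hcont.tendsto.mono_left nhdsWithin_le_nhds, hne⟩
  have h5 : ∀ᶠ z in 𝓝[≠] (0 : ℂ), G (χ z) = H (χ z) := by
    have h5 : disc ∈ 𝓝[≠] (0 : ℂ) := nhdsWithin_le_nhds (Metric.isOpen_ball.mem_nhds h0)
    filter_upwards [h5] with z hz
    exact h z hz
  exact h4.frequently h5.frequently

/-- Basic properties of a normal weighted composition operator. -/
theorem WCOData.of_normal {T : H2 →L[ℂ] H2} {ψ φ : ℂ → ℂ}
    (heval : ∀ f z, ‖z‖ < 1 → ev (T f) z = ψ z * ev f (φ z))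
    (hmaps : ∀ z, ‖z‖ < 1 → ‖φ z‖ < 1) (hdiff : DifferentiableOn ℂ φ disc)
    (hT : IsStarNormal T) (hψ : ∃ z, ‖z‖ < 1 ∧ ψ z ≠ 0) (hφ : ∃ z ∈ disc, φ z ≠ φ 0) :
    WCOData T ψ φ := by
  have hadj : ∀ w, ‖w‖ < 1 → adjoint T (ker w) = conj (ψ w) • ker (φ w) := fun w hw =>
    WCOData.adjoint_ker_aux heval hmaps hw
  have hne : ∀ z, ‖z‖ < 1 → ψ z ≠ 0 := by
    intro w hw h0
    have h1 := hadj w hw
    rw [h0, map_zero, zero_smul] at h1
    have h2 := (hT.adjoint_apply_eq_zero_iff (ker w)).1 h1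
    obtain ⟨z, hz, hz'⟩ := hψ
    have h3 := heval (ker w) z hz
    rw [h2, ev_zero'] at h3
    exact (mul_ne_zero hz' (ev_ker_ne_zero hw (hmaps z hz))) h3.symm
  have hTinj : ∀ f, T f = 0 → f = 0 := by
    intro f hf
    refine eq_zero_of_ev fun z hz => ?_
    refine eqOn_disc_of_comp' (differentiableOn_ev f) (H := fun _ => 0) (differentiableOn_const _)
      hdiff (fun z hz => mem_disc.2 (hmaps z (mem_disc.1 hz))) hφ (fun z hz => ?_) z (mem_disc.2 hz)
    have h1 := heval f z (mem_disc.1 hz)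
    rw [hf, ev_zero'] at h1
    exact (mul_eq_zero.1 h1.symm).resolve_left (hne z (mem_disc.1 hz))
  refine ⟨heval, hmaps, hdiff, hT, ?_, hne⟩
  intro w₁ hw₁ w₂ hw₂ heq
  rw [mem_disc] at hw₁ hw₂
  have h1 : adjoint T (conj (ψ w₂) • ker w₁ - conj (ψ w₁) • ker w₂) = 0 := by
    rw [map_sub, map_smul, map_smul, hadj _ hw₁, hadj _ hw₂, heq, smul_smul, smul_smul, mul_comm,
      sub_self]
  have h2 := hTinj _ ((hT.adjoint_apply_eq_zero_iff _).1 h1)
  refine eq_of_ker_smul hw₁ hw₂ (a := conj (ψ w₂)) (b := conj (ψ w₁)) ?_ (sub_eq_zero.1 h2)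
  rw [map_ne_zero]
  exact hne _ hw₂

namespace WCOData

variable {T : H2 →L[ℂ] H2} {ψ φ : ℂ → ℂ}

lemma iterate_maps (h : WCOData T ψ φ) (n : ℕ) : ∀ z, ‖z‖ < 1 → ‖φ^[n] z‖ < 1 := by
  induction n with
  | zero => intro z hz; simpa using hz
  | succ n ih =>
    intro z hz
    rw [Function.iterate_succ_apply']
    exact h.maps _ (ih z hz)

lemma iterate_mapsTo (h : WCOData T ψ φ) (n : ℕ) : Set.MapsTo φ^[n] disc disc :=
  fun z hz => mem_disc.2 (h.iterate_maps n z (mem_disc.1 hz))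

lemma iterate_diff (h : WCOData T ψ φ) (n : ℕ) : DifferentiableOn ℂ φ^[n] disc := by
  induction n with
  | zero => exact differentiableOn_id
  | succ n ih =>
    rw [Function.iterate_succ']
    exact h.diff.comp ih (h.iterate_mapsTo n)

lemma iterate_inj (h : WCOData T ψ φ) (n : ℕ) : Set.InjOn φ^[n] disc := by
  induction n with
  | zero => exact Function.injective_id.injOn
  | succ n ih =>
    rw [Function.iterate_succ']
    exact h.inj.comp ih (h.iterate_mapsTo n)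

/-- The weight of `T ^ n`. -/
noncomputable def wt (ψ φ : ℂ → ℂ) (n : ℕ) (z : ℂ) : ℂ := ∏ i ∈ Finset.range n, ψ (φ^[i] z)

lemma pow (h : WCOData T ψ φ) (n : ℕ) : WCOData (T ^ n) (wt ψ φ n) φ^[n] where
  eval := by
    induction n with
    | zero =>
      intro f z hz
      simp [wt]
    | succ n ih =>
      intro f z hz
      rw [pow_succ]
      show ev ((T ^ n) (T f)) z = _
      rw [ih _ z hz, h.eval _ _ (h.iterate_maps n z hz), wt, wt,
        Finset.prod_range_succ, Function.iterate_succ_apply', mul_assoc]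
  maps := h.iterate_maps n
  diff := h.iterate_diff n
  normal := by
    refine ⟨?_⟩
    rw [star_pow]
    exact h.normal.star_comm_self.pow_pow n n
  inj := h.iterate_inj n
  ne_zero := by
    intro z hz
    rw [wt, Finset.prod_ne_zero_iff]
    intro i _
    exact h.ne_zero _ (h.iterate_maps i z hz)

lemma weight_diff (h : WCOData T ψ φ) : DifferentiableOn ℂ ψ disc := by
  refine (differentiableOn_ev (T (ker 0))).congr fun z hz => ?_
  rw [h.eval _ _ (mem_disc.1 hz), ev_ker (by simp) (h.maps _ (mem_disc.1 hz))]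
  simp

theorem exists_tau (h : WCOData T ψ φ) : ∃ (lam : ℂ) (τ : ℕ → ℂ → ℂ), ‖lam‖ ≤ 1 ∧
    (∀ z ∈ disc, τ 0 z = -z / (1 - lam * z)) ∧ (∀ n, DifferentiableOn ℂ (τ n) disc) ∧
    (∀ n, Set.InjOn (τ n) disc) ∧ ∀ n, ∀ z ∈ disc, τ (n + 1) (φ z) = τ n z := by
  choose a b hda hdb hcomp hne hinj using fun n => (h.pow n).exists_ab
  have h0 : (0 : ℂ) ∈ disc := by simp
  -- compatibility
  have hca : ∀ n, ∀ ζ ∈ disc, a (n + 1) (φ ζ) = ψ ζ * a n ζ := by
    intro n
    refine eqOn_disc_of_comp (G := fun ζ => a (n + 1) (φ ζ)) (H := fun ζ => ψ ζ * a n ζ)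
      ((hda (n + 1)).comp h.diff h.mapsTo) (h.weight_diff.mul (hda n)) (h.pow n).continuousAt_zero
      (h.iterate_mapsTo n) (h.iterate_inj n) fun v hv => ?_
    have h1 := (hcomp (n + 1) v hv).1
    have h2 := (hcomp n v hv).1
    rw [Function.iterate_succ_apply'] at h1
    rw [h1, h2, wt, wt, Finset.prod_range_succ, mul_comm]
  have hcb : ∀ n, ∀ ζ ∈ disc, b (n + 1) (φ ζ) = ψ ζ * b n ζ := by
    intro n
    refine eqOn_disc_of_comp (G := fun ζ => b (n + 1) (φ ζ)) (H := fun ζ => ψ ζ * b n ζ)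
      ((hdb (n + 1)).comp h.diff h.mapsTo) (h.weight_diff.mul (hdb n)) (h.pow n).continuousAt_zero
      (h.iterate_mapsTo n) (h.iterate_inj n) fun v hv => ?_
    have h1 := (hcomp (n + 1) v hv).2
    have h2 := (hcomp n v hv).2
    rw [Function.iterate_succ_apply'] at h1
    rw [h1, h2, wt, wt, Finset.prod_range_succ]
    ring
  -- cluster point
  obtain ⟨lam, hlam, hclus⟩ : ∃ lam ∈ Metric.closedBall (0 : ℂ) 1,
      MapClusterPt lam atTop (fun m => conj (φ^[m] 0)) := by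
    refine (isCompact_closedBall (0 : ℂ) 1).exists_mapClusterPt ?_
    rw [le_principal_iff]
    refine Filter.mem_map.2 (Filter.univ_mem' fun m => ?_)
    show conj (φ^[m] 0) ∈ Metric.closedBall (0 : ℂ) 1
    rw [mem_closedBall_zero_iff, RCLike.norm_conj]
    exact (h.iterate_maps m 0 (by simp)).le
  have hden : ∀ n, ∀ ζ ∈ disc, a n ζ + lam * b n ζ ≠ 0 := by
    intro n ζ₀ hζ₀ hzero
    have hb0 : b n ζ₀ ≠ 0 := by
      intro hb
      rw [hb, mul_zero, add_zero] at hzero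
      have := hne n ζ₀ hζ₀ 0 h0
      rw [hb, hzero] at this
      simp at this
    have hban : AnalyticAt ℂ (b n) ζ₀ := (hdb n).analyticAt (Metric.isOpen_ball.mem_nhds hζ₀)
    have haan : AnalyticAt ℂ (a n) ζ₀ := (hda n).analyticAt (Metric.isOpen_ball.mem_nhds hζ₀)
    have hG : AnalyticAt ℂ (fun ζ => -a n ζ / b n ζ) ζ₀ := haan.neg.div hban hb0
    have hG0 : -a n ζ₀ / b n ζ₀ = lam := by
      rw [div_eq_iff hb0]
      linear_combination (-1 : ℂ) * hzero
    have hS : ∀ᶠ ζ in 𝓝 ζ₀, ζ ∈ disc ∧ b n ζ ≠ 0 :=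
      (Metric.isOpen_ball.eventually_mem hζ₀).and (hban.continuousAt.eventually_ne hb0)
    rcases hG.eventually_constant_or_nhds_le_map_nhds with hconst | hopen
    · have h1 : ∀ᶠ ζ in 𝓝[≠] ζ₀, (ζ ∈ disc ∧ b n ζ ≠ 0) ∧ -a n ζ / b n ζ = -a n ζ₀ / b n ζ₀ ∧ ζ ≠ ζ₀ := by
        filter_upwards [nhdsWithin_le_nhds hS, nhdsWithin_le_nhds hconst, self_mem_nhdsWithin]
          with ζ h1 h2 h3
        exact ⟨h1, h2, h3⟩
      obtain ⟨ζ, ⟨h1, h2⟩, h3, h4⟩ := h1.exists
      apply h4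
      apply hinj n ζ h1 ζ₀ hζ₀
      rw [div_eq_div_iff h2 hb0] at h3
      linear_combination (-1 : ℂ) * h3
    · rw [hG0] at hopen
      have h1 : (fun ζ => -a n ζ / b n ζ) '' {ζ | ζ ∈ disc ∧ b n ζ ≠ 0} ∈ 𝓝 lam :=
        hopen (Filter.image_mem_map hS)
      have h2 := (mapClusterPt_iff_frequently.1 hclus _ h1).and_eventually (eventually_ge_atTop n)
      obtain ⟨m, ⟨ζ, ⟨hζ, hbζ⟩, hζm⟩, hmn⟩ := h2.exists
      have h3 := hne n ζ hζ (φ^[m - n] 0) (h.iterate_mapsTo (m - n) h0)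
      apply h3
      rw [← Function.iterate_add_apply, show n + (m - n) = m by omega, ← hζm]
      field_simp
      ring
  refine ⟨lam, fun n ζ => b n ζ * (a n ζ + lam * b n ζ)⁻¹, mem_closedBall_zero_iff.1 hlam, ?_, ?_, ?_, ?_⟩
  · intro z hz
    have h1 := hcomp 0 z hz
    simp only [Function.iterate_zero, id_eq, wt, Finset.range_zero, Finset.prod_empty, mul_one] at h1
    show b 0 z * (a 0 z + lam * b 0 z)⁻¹ = _
    rw [h1.1, h1.2, div_eq_mul_inv]
    ring_nf
  · intro n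
    exact (hdb n).mul (((hda n).add ((hdb n).const_mul lam)).inv (hden n))
  · intro n ζ₁ hζ₁ ζ₂ hζ₂ heq
    apply hinj n ζ₁ hζ₁ ζ₂ hζ₂
    have h1 := hden n ζ₁ hζ₁
    have h2 := hden n ζ₂ hζ₂
    simp only at heq
    rw [← div_eq_mul_inv, ← div_eq_mul_inv, div_eq_div_iff h1 h2] at heq
    linear_combination (-1 : ℂ) * heq
  · intro n z hz
    show b (n + 1) (φ z) * (a (n + 1) (φ z) + lam * b (n + 1) (φ z))⁻¹
      = b n z * (a n z + lam * b n z)⁻¹
    rw [hca n z hz, hcb n z hz]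
    have h1 := h.ne_zero z (mem_disc.1 hz)
    have h2 := hden n z hz
    rw [show ψ z * a n z + lam * (ψ z * b n z) = ψ z * (a n z + lam * b n z) by ring, mul_inv]
    field_simp

end WCOData

end Pool.Agent.Helper47.WCO
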